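import Mathlib
import Pool.Agent.T6.H78.CK.E4
import Pool.Agent.T6.H82.KS.Model

/-!
One-sided classes of completely multiplicative functions: the corrected logarithm
-/

set_option autoImplicit false
set_option linter.unusedSectionVars false

open Complex Finset Filter Topology ArithmeticFunction
open Pool.H232R3
open Pool.T6.H82.KS (zf zz zf_norm_le zf_diff La Kf pf Kf_diff pf_diff exp_La cm_exp_log)
open Pool.Agent.T6.H78.CK (Dec ww ww_bound Phi_diff dec_bound dec_hasSum dec_summable dec_cj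
  dec_prime)

namespace Pool.T6.H82.OS

variable {q : ℕ} [NeZero q] {κ : Type} [Fintype κ]

/-- the data: a completely multiplicative `f` with decay and a family of twisted characters whose
weighted sum at the prime `p` is `p A(p)`, `A(p)` real -/
structure Dat (q : ℕ) [NeZero q] (κ : Type) [Fintype κ] (c : κ → ℝ)
    (χ : κ → DirichletCharacter ℂ q) (γ : κ → ℝ) (f : ArithmeticFunction ℂ) (A : ℕ → ℝ)
    (θ : ℝ) : Prop where
  c0 : ∀ j, 0 < c j
  one : f 1 = 1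
  mul : ∀ m n, f (m * n) = f m * f n
  th0 : 0 < θ
  th1 : θ ≤ 1 / 2
  dec : Dec (fun n => f n) θ
  real : ∀ p : ℕ, p.Prime → ∑ j, (c j : ℂ) * zf χ γ p 0 j = (A p : ℂ)
  sq : ∀ σ : ℝ, -θ < σ → Summable fun p : Nat.Primes => (‖f p‖ * (p : ℝ) ^ (-σ)) ^ 2
  ex : Summable fun p : Nat.Primes => Real.sqrt p * max (-(2 * (f p).re + A p)) 0
  triv : ∑ j, c j * Pool.T6.H82.KS.ee χ γ j = 2

variable {c : κ → ℝ} {χ : κ → DirichletCharacter ℂ q} {γ : κ → ℝ} {f : ArithmeticFunction ℂ}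
  {A : ℕ → ℝ} {θ : ℝ}

/-- the first order coefficient -/
noncomputable def uf (f : ArithmeticFunction ℂ) (A : ℕ → ℝ) (p : ℕ) : ℝ :=
  max (2 * (f p).re + A p) 0

/-- the excess -/
noncomputable def ef (f : ArithmeticFunction ℂ) (A : ℕ → ℝ) (p : ℕ) : ℝ :=
  max (-(2 * (f p).re + A p)) 0

lemma uf_nonneg (f : ArithmeticFunction ℂ) (A : ℕ → ℝ) (p : ℕ) : 0 ≤ uf f A p := le_max_right _ _
lemma ef_nonneg (f : ArithmeticFunction ℂ) (A : ℕ → ℝ) (p : ℕ) : 0 ≤ ef f A p := le_max_right _ _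

lemma uf_sub_ef (f : ArithmeticFunction ℂ) (A : ℕ → ℝ) (p : ℕ) :
    uf f A p - ef f A p = 2 * (f p).re + A p := by
  unfold uf ef
  rcases le_total 0 (2 * (f p).re + A p) with h | h
  · rw [max_eq_left h, max_eq_right (by linarith)]; ring
  · rw [max_eq_right h, max_eq_left (by linarith)]; ring

/-- the second order term at `p` -/
noncomputable def vs (c : κ → ℝ) (χ : κ → DirichletCharacter ℂ q) (γ : κ → ℝ)
    (f : ArithmeticFunction ℂ) (A : ℕ → ℝ) (p : ℕ) (s : ℂ) : ℂ :=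
  -ww (f p * (p : ℂ) ^ (-s)) - ww (cj f p * (p : ℂ) ^ (-s)) - ∑ j, (c j : ℂ) * ww (zf χ γ p s j)
    - (ef f A p : ℂ) * (p : ℂ) ^ (-s)

/-- the second order part -/
noncomputable def V (c : κ → ℝ) (χ : κ → DirichletCharacter ℂ q) (γ : κ → ℝ)
    (f : ArithmeticFunction ℂ) (A : ℕ → ℝ) (s : ℂ) : ℂ := ∑' p : Nat.Primes, vs c χ γ f A p s

lemma natCast_cpow_norm (p : ℕ) (hp : p.Prime) (s : ℂ) : ‖(p : ℂ) ^ (-s)‖ = (p : ℝ) ^ (-s.re) := by
  rw [Complex.norm_natCast_cpow_of_pos hp.pos, Complex.neg_re]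

/-- uniform bounds for the arguments -/
lemma Dat.arg (h : Dat q κ c χ γ f A θ) (σ : ℝ) (hσ : -θ < σ) : ∃ r : ℝ, 0 < r ∧ r < 1 ∧
    (∀ p : ℕ, p.Prime → ‖f p‖ * (p : ℝ) ^ (-σ) ≤ r) ∧
    ∀ p : ℕ, p.Prime → (p : ℝ) ^ (-(1 + σ)) ≤ r := by
  obtain ⟨θ', h1, h2⟩ : ∃ θ', max (-σ) 0 < θ' ∧ θ' < θ := exists_between (max_lt (by linarith) h.th0)
  have h3 : -σ < θ' := (le_max_left _ _).trans_lt h1
  have h4 : 0 < θ' := (le_max_right _ _).trans_lt h1
  have hth := h.th1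
  refine ⟨max ((2 : ℝ) ^ (-(θ' + σ))) ((2 : ℝ) ^ (-(1 + σ))), ?_, ?_, ?_, ?_⟩
  · exact lt_max_of_lt_left (by positivity)
  · refine max_lt ?_ ?_
    · exact Real.rpow_lt_one_of_one_lt_of_neg (by norm_num) (by linarith)
    · exact Real.rpow_lt_one_of_one_lt_of_neg (by norm_num) (by linarith)
  · intro p hp
    have hp0 : (0 : ℝ) < p := by exact_mod_cast hp.pos
    have hp2 : (2 : ℝ) ≤ p := by exact_mod_cast hp.two_le
    have h5 := dec_prime f h.one h.mul θ h.dec θ' h4.le h2 p hp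
    calc ‖f p‖ * (p : ℝ) ^ (-σ) ≤ (p : ℝ) ^ (-θ') * (p : ℝ) ^ (-σ) := by gcongr
      _ = (p : ℝ) ^ (-(θ' + σ)) := by rw [← Real.rpow_add hp0]; congr 1; ring
      _ ≤ (2 : ℝ) ^ (-(θ' + σ)) :=
          Real.rpow_le_rpow_of_nonpos (by norm_num) hp2 (by linarith)
      _ ≤ _ := le_max_left _ _
  · intro p hp
    have hp2 : (2 : ℝ) ≤ p := by exact_mod_cast hp.two_le
    exact (Real.rpow_le_rpow_of_nonpos (by norm_num) hp2 (by linarith)).trans (le_max_right _ _)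

lemma cj_norm (f : ArithmeticFunction ℂ) (n : ℕ) : ‖cj f n‖ = ‖f n‖ := by
  rw [cj_apply, RCLike.norm_conj]

/-- the dominating series -/
lemma Dat.dom (h : Dat q κ c χ γ f A θ) (σ : ℝ) (hσ : -θ < σ) : ∃ D : Nat.Primes → ℝ,
    Summable D ∧ ∀ (p : Nat.Primes) (s : ℂ), σ ≤ s.re → ‖vs c χ γ f A p s‖ ≤ D p := by
  obtain ⟨r, hr0, hr1, hra, hrb⟩ := h.arg σ hσ
  have hth := h.th1
  have hr1' : 0 < 1 - r := by linarith
  set C : ℝ := ∑ j, c j with hC
  have hC0 : 0 ≤ C := Finset.sum_nonneg fun j _ => (h.c0 j).le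
  refine ⟨fun p => 2 * ((1 - r)⁻¹ * (‖f p‖ * (p : ℝ) ^ (-σ)) ^ 2)
    + C * ((1 - r)⁻¹ * ((p : ℝ) ^ (-(1 + σ))) ^ 2) + Real.sqrt p * ef f A p, ?_, ?_⟩
  · refine Summable.add (Summable.add ?_ ?_) h.ex
    · exact ((h.sq σ hσ).mul_left _).mul_left _
    · exact ((Pool.T6.H82.KS.sq_summable σ (by linarith)).mul_left _).mul_left _
  · intro p s hs
    have hp0 : (0 : ℝ) < (p : ℕ) := by exact_mod_cast p.2.pos
    have hp1 : (1 : ℝ) ≤ (p : ℕ) := by exact_mod_cast p.2.one_lt.le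
    have hps : ((p : ℕ) : ℝ) ^ (-s.re) ≤ ((p : ℕ) : ℝ) ^ (-σ) :=
      Real.rpow_le_rpow_of_exponent_le hp1 (by linarith)
    have hfp : ‖f p * ((p : ℕ) : ℂ) ^ (-s)‖ ≤ ‖f p‖ * ((p : ℕ) : ℝ) ^ (-σ) := by
      rw [norm_mul, natCast_cpow_norm p p.2]
      gcongr
    have hfc : ‖cj f p * ((p : ℕ) : ℂ) ^ (-s)‖ ≤ ‖f p‖ * ((p : ℕ) : ℝ) ^ (-σ) := by
      rw [norm_mul, natCast_cpow_norm p p.2, cj_norm]
      gcongr
    have b1 : ‖ww (f p * ((p : ℕ) : ℂ) ^ (-s))‖ ≤ (1 - r)⁻¹ * (‖f p‖ * ((p : ℕ) : ℝ) ^ (-σ)) ^ 2 := by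
      refine (ww_bound _ r hr1 (hfp.trans (hra p p.2))).trans ?_
      gcongr
    have b2 : ‖ww (cj f p * ((p : ℕ) : ℂ) ^ (-s))‖ ≤
        (1 - r)⁻¹ * (‖f p‖ * ((p : ℕ) : ℝ) ^ (-σ)) ^ 2 := by
      refine (ww_bound _ r hr1 (hfc.trans (hra p p.2))).trans ?_
      gcongr
    have b3 : ‖∑ j, (c j : ℂ) * ww (zf χ γ p s j)‖ ≤
        C * ((1 - r)⁻¹ * (((p : ℕ) : ℝ) ^ (-(1 + σ))) ^ 2) := by
      refine Pool.T6.H82.KS.norm_wsum_le c (fun j => (h.c0 j).le) _ _ fun j => ?_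
      have hz : ‖zf χ γ p s j‖ ≤ ((p : ℕ) : ℝ) ^ (-(1 + σ)) := by
        refine (zf_norm_le χ γ p p.2 s j).trans ?_
        exact Real.rpow_le_rpow_of_exponent_le hp1 (by linarith)
      refine (ww_bound _ r hr1 (hz.trans (hrb p p.2))).trans ?_
      gcongr
    have b4 : ‖(ef f A p : ℂ) * ((p : ℕ) : ℂ) ^ (-s)‖ ≤ Real.sqrt p * ef f A p := by
      rw [norm_mul, natCast_cpow_norm p p.2, Complex.norm_real, Real.norm_eq_abs,
        abs_of_nonneg (ef_nonneg f A p), mul_comm, Real.sqrt_eq_rpow]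
      have := ef_nonneg f A p
      gcongr
      linarith
    unfold vs
    refine (norm_sub_le _ _).trans ?_
    refine add_le_add ?_ b4
    refine (norm_sub_le _ _).trans ?_
    refine add_le_add ?_ b3
    refine (norm_sub_le _ _).trans ?_
    rw [norm_neg]
    linarith

lemma Dat.vs_summable (h : Dat q κ c χ γ f A θ) (s : ℂ) (hs : -θ < s.re) :
    Summable fun p : Nat.Primes => vs c χ γ f A p s := by
  obtain ⟨D, hD, hb⟩ := h.dom s.re hs
  exact Summable.of_norm_bounded hD fun p => hb p s le_rfl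

lemma ww_diff (z : ℂ) (hz : ‖z‖ < 1) : DifferentiableAt ℂ ww z := by
  unfold ww
  refine differentiableAt_id.add (DifferentiableAt.clog ?_ ?_)
  · exact (differentiableAt_const _).sub differentiableAt_id
  · rw [sub_eq_add_neg]
    refine Complex.mem_slitPlane_of_norm_lt_one ?_
    simpa using hz

lemma Dat.vs_diff (h : Dat q κ c χ γ f A θ) (p : ℕ) (hp : p.Prime) (s : ℂ) (hs : -θ < s.re) :
    DifferentiableAt ℂ (vs c χ γ f A p) s := by
  obtain ⟨r, hr0, hr1, hra, hrb⟩ := h.arg s.re hs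
  have hp0 : (p : ℂ) ≠ 0 := by exact_mod_cast hp.ne_zero
  have hcp : DifferentiableAt ℂ (fun s : ℂ => (p : ℂ) ^ (-s)) s :=
    DifferentiableAt.const_cpow differentiableAt_id.neg (Or.inl hp0)
  have h1 : DifferentiableAt ℂ (fun s : ℂ => ww (f p * (p : ℂ) ^ (-s))) s := by
    refine DifferentiableAt.comp s (g := ww) (f := fun s : ℂ => f p * (p : ℂ) ^ (-s))
      (ww_diff _ ?_) (hcp.const_mul _)
    rw [norm_mul, natCast_cpow_norm p hp]
    exact lt_of_le_of_lt (hra p hp) hr1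
  have h2 : DifferentiableAt ℂ (fun s : ℂ => ww (cj f p * (p : ℂ) ^ (-s))) s := by
    refine DifferentiableAt.comp s (g := ww) (f := fun s : ℂ => cj f p * (p : ℂ) ^ (-s))
      (ww_diff _ ?_) (hcp.const_mul _)
    rw [norm_mul, natCast_cpow_norm p hp, cj_norm]
    exact lt_of_le_of_lt (hra p hp) hr1
  have h3 : DifferentiableAt ℂ (fun s : ℂ => ∑ j, (c j : ℂ) * ww (zf χ γ p s j)) s := by
    refine DifferentiableAt.fun_sum fun j _ => DifferentiableAt.const_mul ?_ _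
    refine DifferentiableAt.comp s (g := ww) (f := fun s : ℂ => zf χ γ p s j)
      (ww_diff _ ?_) (zf_diff χ γ p hp j s)
    exact lt_of_le_of_lt ((zf_norm_le χ γ p hp s j).trans (hrb p hp)) hr1
  unfold vs
  exact ((h1.neg.sub h2).sub h3).sub (hcp.const_mul _)

lemma Dat.V_diff (h : Dat q κ c χ γ f A θ) (s : ℂ) (hs : -θ < s.re) :
    DifferentiableAt ℂ (V c χ γ f A) s := by
  obtain ⟨σ, hσ1, hσ2⟩ := exists_between hs
  have hopen : IsOpen {w : ℂ | σ < w.re} := isOpen_lt continuous_const Complex.continuous_re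
  obtain ⟨D, hD, hb⟩ := h.dom σ hσ1
  have h1 := differentiableOn_tsum_of_summable_norm
    (F := fun (p : Nat.Primes) (w : ℂ) => vs c χ γ f A p w) (u := D) hD
    (fun p w hw => (h.vs_diff p p.2 w (lt_trans hσ1 hw)).differentiableWithinAt)
    hopen (fun p w hw => hb p w (le_of_lt hw))
  exact (h1 s hσ2).differentiableAt (hopen.mem_nhds hσ2)

/-- the coefficients of the first order part -/
noncomputable def ac (f : ArithmeticFunction ℂ) (A : ℕ → ℝ) (n : ℕ) : ℂ :=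
  if n.Prime then ((uf f A n : ℝ) : ℂ) else 0

lemma ac_nonneg (f : ArithmeticFunction ℂ) (A : ℕ → ℝ) (n : ℕ) : (0 : ℝ) ≤ (ac f A n).re ∧
    (ac f A n).im = 0 := by
  unfold ac
  split_ifs
  · exact ⟨by simpa using uf_nonneg f A n, by simp⟩
  · simp

/-- a Dirichlet series over the primes -/
lemma ac_hasSum (f : ArithmeticFunction ℂ) (A : ℕ → ℝ) (s : ℂ)
    (hS : Summable fun p : Nat.Primes => ((uf f A p : ℝ) : ℂ) * ((p : ℕ) : ℂ) ^ (-s)) :
    LSeriesHasSum (ac f A) s (∑' p : Nat.Primes, ((uf f A p : ℝ) : ℂ) * ((p : ℕ) : ℂ) ^ (-s)) := by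
  have h1 := (hasSum_subtype_iff_indicator (f := fun p : ℕ => ((uf f A p : ℝ) : ℂ) * (p : ℂ) ^ (-s))
    (s := {p : ℕ | p.Prime})).mp hS.hasSum
  unfold LSeriesHasSum
  convert! h1 using 1
  ext n
  by_cases hn : n.Prime
  · rw [Set.indicator_of_mem (show n ∈ {p : ℕ | p.Prime} from hn), LSeries.term_of_ne_zero hn.ne_zero,
      Complex.cpow_neg, ← div_eq_mul_inv]
    unfold ac
    rw [if_pos hn]
  · rw [Set.indicator_of_notMem (show n ∉ {p : ℕ | p.Prime} from hn), LSeries.term_def]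
    split_ifs with h0
    · rfl
    · unfold ac
      rw [if_neg hn, zero_div]

lemma summable_of_ac (f : ArithmeticFunction ℂ) (A : ℕ → ℝ) (s : ℂ)
    (hS : LSeriesSummable (ac f A) s) :
    Summable fun p : Nat.Primes => ((uf f A p : ℝ) : ℂ) * ((p : ℕ) : ℂ) ^ (-s) := by
  have h1 : Summable (({p : ℕ | p.Prime} : Set ℕ).indicator
      fun p : ℕ => ((uf f A p : ℝ) : ℂ) * (p : ℂ) ^ (-s)) := by
    refine Summable.congr hS fun n => ?_
    by_cases hn : n.Prime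
    · rw [Set.indicator_of_mem (show n ∈ {p : ℕ | p.Prime} from hn),
        LSeries.term_of_ne_zero hn.ne_zero, Complex.cpow_neg, ← div_eq_mul_inv]
      unfold ac
      rw [if_pos hn]
    · rw [Set.indicator_of_notMem (show n ∉ {p : ℕ | p.Prime} from hn), LSeries.term_def]
      split_ifs with h0
      · rfl
      · unfold ac
        rw [if_neg hn, zero_div]
  exact (summable_subtype_iff_indicator (s := {p : ℕ | p.Prime})).mpr h1

end Pool.T6.H82.OS
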