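import Mathlib

/-!
Landau's theorem on Dirichlet series with nonnegative coefficients
-/

set_option autoImplicit false

open Complex Filter Topology Finset
open scoped ComplexOrder

namespace Pool.T6.H82.OS

/-- Landau's theorem: a Dirichlet series with nonnegative coefficients which converges to the right
of `σ` and has an analytic continuation to a neighbourhood of `σ` converges at some `x < σ` -/
theorem landau (B : ℕ → ℂ) (hB : ∀ n, 0 ≤ B n) (σ η : ℝ) (hη : 0 < η)
    (hab : ∀ s : ℂ, σ < s.re → LSeriesSummable B s)
    (W : ℂ → ℂ) (hW : DifferentiableOn ℂ W (Metric.ball (σ : ℂ) η))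
    (hWB : ∀ s ∈ Metric.ball (σ : ℂ) η, σ < s.re → W s = LSeries B s) :
    ∃ x : ℝ, x < σ ∧ LSeriesSummable B x := by
  set x0 : ℝ := σ + η / 3 with hx0
  have hballsub : Metric.ball (x0 : ℂ) (2 * η / 3) ⊆ Metric.ball (σ : ℂ) η := by
    apply Metric.ball_subset_ball'
    rw [dist_eq_norm, ← Complex.ofReal_sub, Complex.norm_real, Real.norm_eq_abs, hx0,
      add_sub_cancel_left, abs_of_pos (by positivity)]
    linarith
  have hb : ∀ (N : ℕ) (s : ℂ), LSeriesHasSum (fun n => if n < N then B n else 0) s
      (∑ n ∈ range N, LSeries.term B s n) := by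
    intro N s
    unfold LSeriesHasSum
    have h1 : ∀ n ∉ range N, LSeries.term (fun n => if n < N then B n else 0) s n = 0 := by
      intro n hn
      rw [mem_range] at hn
      rw [LSeries.term_def, if_neg hn]
      simp
    have h : HasSum (LSeries.term (fun n => if n < N then B n else 0) s)
        (∑ n ∈ range N, LSeries.term (fun n => if n < N then B n else 0) s n) :=
      hasSum_sum_of_ne_finset_zero h1
    convert h using 1
    apply sum_congr rfl
    intro n hn
    rw [mem_range] at hn
    rw [LSeries.term_def, LSeries.term_def, if_pos hn]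
  have key : ∀ (N : ℕ) (x : ℝ), x0 - 2 * η / 3 < x → x ≤ x0 →
      ∑ n ∈ range N, LSeries.term B x n ≤ W x := by
    intro N x hx hx2
    set d : ℕ → ℂ := fun n => B n - (if n < N then B n else 0) with hd
    have hd0 : 0 ≤ d := by
      intro n
      simp only [hd]
      split_ifs
      · simp
      · simpa using hB n
    have hsum : ∀ s : ℂ, σ < s.re → LSeriesHasSum d s
        (LSeries B s - ∑ n ∈ range N, LSeries.term B s n) := fun s hs =>
      ((hab s hs).LSeriesHasSum).sub (hb N s)
    have habs : LSeries.abscissaOfAbsConv d ≤ ((σ : ℝ) : EReal) := by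
      refine LSeries.abscissaOfAbsConv_le_of_forall_lt_LSeriesSummable ?_
      intro y hy
      exact (hsum y (by simpa using hy)).LSeriesSummable
    have habs2 : LSeries.abscissaOfAbsConv d < ((x0 : ℝ) : EReal) :=
      lt_of_le_of_lt habs (by exact_mod_cast (by rw [hx0]; linarith : σ < x0))
    have hder := LSeries.iteratedDeriv_alternating hd0 habs2
    set D : ℂ → ℂ := fun s => W s - ∑ n ∈ range N, LSeries.term B s n with hD
    set G : ℂ → ℂ := fun z => D (-z) with hG
    have hGeq : ∀ n : ℕ, iteratedDeriv n D ((x0 : ℝ) : ℂ)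
        = iteratedDeriv n (LSeries d) ((x0 : ℝ) : ℂ) := by
      intro n
      refine Filter.EventuallyEq.iteratedDeriv_eq n ?_
      have ho : IsOpen {s : ℂ | σ < s.re} := isOpen_lt continuous_const Complex.continuous_re
      have h1 : (x0 : ℂ) ∈ {s : ℂ | σ < s.re} := by
        show σ < (x0 : ℂ).re
        rw [Complex.ofReal_re, hx0]; linarith
      have h2 : (x0 : ℂ) ∈ Metric.ball (σ : ℂ) η :=
        hballsub (Metric.mem_ball_self (by positivity))
      filter_upwards [ho.mem_nhds h1, Metric.isOpen_ball.mem_nhds h2] with s hs hs2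
      simp only [hD]
      rw [(hsum s hs).LSeries_eq, hWB s hs2 hs]
    have hDd : DifferentiableOn ℂ D (Metric.ball (x0 : ℂ) (2 * η / 3)) := by
      refine DifferentiableOn.sub (hW.mono hballsub) ?_
      refine DifferentiableOn.fun_sum fun n _ => ?_
      intro s _
      refine DifferentiableAt.differentiableWithinAt ?_
      rcases Nat.eq_zero_or_pos n with h0 | h0
      · subst h0
        have : (fun s : ℂ => LSeries.term B s 0) = fun _ => 0 := by
          ext s; rw [LSeries.term_zero]
        rw [this]
        exact differentiableAt_const _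
      · have hn0 : (n : ℂ) ≠ 0 := by exact_mod_cast h0.ne'
        have : (fun s : ℂ => LSeries.term B s n) = fun s => B n * (n : ℂ) ^ (-s) := by
          ext s
          rw [LSeries.term_of_ne_zero h0.ne', Complex.cpow_neg, div_eq_mul_inv]
        rw [this]
        refine DifferentiableAt.const_mul ?_ _
        exact DifferentiableAt.const_cpow differentiableAt_id.neg (Or.inl hn0)
    have hball : DifferentiableOn ℂ G (Metric.ball (-((x0 : ℝ) : ℂ)) (2 * η / 3)) := by
      refine hDd.comp (differentiable_neg.differentiableOn) ?_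
      intro z hz
      rw [Metric.mem_ball, dist_eq_norm] at hz ⊢
      have : -z - (x0 : ℂ) = -(z - -(x0 : ℂ)) := by ring
      rw [this, norm_neg]
      exact hz
    have hfin := hball.nonneg_of_iteratedDeriv_nonneg (c := -((x0 : ℝ) : ℂ)) ?_
      (z := -(x : ℂ)) ?_ ?_
    · simp only [hG, neg_neg] at hfin
      exact sub_nonneg.mp hfin
    · intro n
      have h6 := iteratedDeriv_comp_neg n D (-((x0 : ℝ) : ℂ))
      rw [neg_neg, hGeq n, smul_eq_mul] at h6
      show 0 ≤ iteratedDeriv n (fun z : ℂ => D (-z)) (-((x0 : ℝ) : ℂ))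
      rw [h6]
      exact hder n
    · rw [neg_le_neg_iff]
      exact_mod_cast hx2
    · rw [Metric.mem_ball, dist_eq_norm]
      have : -(x : ℂ) - -((x0 : ℝ) : ℂ) = ((x0 - x : ℝ) : ℂ) := by push_cast; ring
      rw [this, Complex.norm_real, Real.norm_eq_abs, abs_of_nonneg (by linarith)]
      linarith
  refine ⟨x0 - η / 2, by rw [hx0]; linarith, ?_⟩
  set x : ℝ := x0 - η / 2 with hx
  have hterm : ∀ n, 0 ≤ LSeries.term B x n := fun n => LSeries.term_nonneg (hB n) x
  have hre : ∀ n, LSeries.term B x n = (((LSeries.term B x n).re : ℝ) : ℂ) := fun n =>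
    Complex.eq_re_of_ofReal_le (hterm n)
  have h1 : Summable fun n => (LSeries.term B x n).re := by
    refine summable_of_sum_range_le (c := (W x).re) (fun n => (Complex.le_def.mp (hterm n)).1)
      fun N => ?_
    have h2 := (Complex.le_def.mp (key N x (by rw [hx]; linarith) (by rw [hx]; linarith))).1
    rwa [Complex.re_sum] at h2
  unfold LSeriesSummable
  have h3 := Complex.hasSum_ofReal.mpr h1.hasSum
  refine h3.summable.congr fun n => ?_
  exact (hre n).symm

end Pool.T6.H82.OS
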