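import Mathlib
import Pool.Agent.T6.H82.OS.Data
import Pool.Agent.T6.H82.OS.Landau
import Pool.Agent.T6.H82.KS.Fin

/-!
One-sided classes of completely multiplicative functions: the identity and its continuation
-/

set_option autoImplicit false
set_option linter.unusedSectionVars false

open Complex Finset Filter Topology ArithmeticFunction
open Pool.H232R3
open Pool.T6.H82.KS (zf zz zf_norm_le zf_diff La Kf pf Kf_diff pf_diff exp_La cm_exp_log NN NN_zero
  cont_abs)
open Pool.Agent.T6.H78.CK (Dec ww ww_bound Phi_diff dec_bound dec_hasSum dec_summable dec_cj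
  dec_prime)

namespace Pool.T6.H82.OS

variable {q : ℕ} [NeZero q] {κ : Type} [Fintype κ]
variable {c : κ → ℝ} {χ : κ → DirichletCharacter ℂ q} {γ : κ → ℝ} {f : ArithmeticFunction ℂ}
  {A : ℕ → ℝ} {θ : ℝ}

lemma zf_shift (χ : κ → DirichletCharacter ℂ q) (γ : κ → ℝ) (p : ℕ) (hp : p.Prime) (s : ℂ) (j : κ) :
    zf χ γ p s j = zf χ γ p 0 j * (p : ℂ) ^ (-s) := by
  unfold zf zz
  have hp0 : (p : ℂ) ≠ 0 := by exact_mod_cast hp.ne_zero
  have e : (p : ℂ) ^ (-(1 + s - I * γ j)) = (p : ℂ) ^ (-(1 + 0 - I * γ j)) * (p : ℂ) ^ (-s) := by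
    rw [← Complex.cpow_add _ _ hp0]
    congr 1
    ring
  rw [e]
  ring

/-- the logarithm of the Dirichlet series of a completely multiplicative function -/
noncomputable def LS (g : ArithmeticFunction ℂ) (s : ℂ) : ℂ :=
  ∑' p : Nat.Primes, -log (1 - g p * ((p : ℕ) : ℂ) ^ (-s))

lemma Dat.norm_le_one (h : Dat q κ c χ γ f A θ) (p : ℕ) (hp : p.Prime) : ‖f p‖ ≤ 1 := by
  have := dec_prime f h.one h.mul θ h.dec 0 le_rfl h.th0 p hp
  simpa using this

lemma summable_lin (g : ArithmeticFunction ℂ) (hg : ∀ p : ℕ, p.Prime → ‖g p‖ ≤ 1) (s : ℂ)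
    (hs : 1 < s.re) : Summable fun p : Nat.Primes => g p * ((p : ℕ) : ℂ) ^ (-s) := by
  refine Summable.of_norm_bounded (g := fun p : Nat.Primes => ((p : ℕ) : ℝ) ^ (-s.re))
    (Nat.Primes.summable_rpow.mpr (by linarith)) fun p => ?_
  rw [norm_mul, natCast_cpow_norm p p.2]
  exact mul_le_of_le_one_left (by positivity) (hg p p.2)

lemma LS_diff (g : ArithmeticFunction ℂ) (hg : ∀ p : ℕ, p.Prime → ‖g p‖ ≤ 1) (s : ℂ)
    (hs : 1 < s.re) : DifferentiableAt ℂ (LS g) s := by
  obtain ⟨σ, hσ1, hσ2⟩ := exists_between hs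
  have hopen : IsOpen {w : ℂ | σ < w.re} := isOpen_lt continuous_const Complex.continuous_re
  have hb : ∀ (p : Nat.Primes) (w : ℂ), σ < w.re → ‖g p * ((p : ℕ) : ℂ) ^ (-w)‖ ≤
      ((p : ℕ) : ℝ) ^ (-σ) := by
    intro p w hw
    have hp1 : (1 : ℝ) ≤ ((p : ℕ) : ℝ) := by exact_mod_cast p.2.one_lt.le
    rw [norm_mul, natCast_cpow_norm p p.2]
    refine (mul_le_of_le_one_left (by positivity) (hg p p.2)).trans ?_
    exact Real.rpow_le_rpow_of_exponent_le hp1 (by linarith)
  have hb2 : ∀ (p : Nat.Primes) (w : ℂ), σ < w.re → ‖g p * ((p : ℕ) : ℂ) ^ (-w)‖ ≤ 1 / 2 :=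
    fun p w hw => (hb p w hw).trans (Pool.T6.H82.KS.rpow_le_half p p.2 σ hσ1.le)
  have h := differentiableOn_tsum_of_summable_norm
    (F := fun (p : Nat.Primes) (w : ℂ) => -log (1 - g p * ((p : ℕ) : ℂ) ^ (-w)))
    (u := fun p : Nat.Primes => 2 * ((p : ℕ) : ℝ) ^ (-σ))
    ((Nat.Primes.summable_rpow.mpr (by linarith)).mul_left 2)
    (fun p w hw => by
      refine DifferentiableAt.differentiableWithinAt ?_
      have hp0 : ((p : ℕ) : ℂ) ≠ 0 := by exact_mod_cast p.2.ne_zero
      have hcp : DifferentiableAt ℂ (fun s : ℂ => ((p : ℕ) : ℂ) ^ (-s)) w :=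
        DifferentiableAt.const_cpow differentiableAt_id.neg (Or.inl hp0)
      have hsl : 1 - g p * ((p : ℕ) : ℂ) ^ (-w) ∈ slitPlane := by
        rw [sub_eq_add_neg]
        refine Complex.mem_slitPlane_of_norm_lt_one ?_
        rw [norm_neg]
        exact lt_of_le_of_lt (hb2 p w hw) (by norm_num)
      exact (DifferentiableAt.clog ((differentiableAt_const (1 : ℂ)).sub (hcp.const_mul _)) hsl).neg)
    hopen
    (fun p w hw => by
      refine (Pool.T6.H82.KS.norm_log_one_sub_le _ (hb2 p w hw)).trans ?_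
      have := hb p w hw
      linarith)
  exact (h s hσ2).differentiableAt (hopen.mem_nhds hσ2)

lemma La_diff' (χ : κ → DirichletCharacter ℂ q) (γ : κ → ℝ) (j : κ) (s : ℂ) (hs : 0 < s.re) :
    DifferentiableAt ℂ (La χ γ j) s := by
  obtain ⟨σ, hσ1, hσ2⟩ := exists_between hs
  have hopen : IsOpen {w : ℂ | σ < w.re} := isOpen_lt continuous_const Complex.continuous_re
  have hb2 : ∀ (p : Nat.Primes) (w : ℂ), σ < w.re → ‖zf χ γ p w j‖ ≤ 1 / 2 := fun p w hw =>
    (zf_norm_le χ γ p p.2 w j).trans (Pool.T6.H82.KS.rpow_le_half p p.2 _ (by linarith))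
  have h := differentiableOn_tsum_of_summable_norm
    (F := fun (p : Nat.Primes) (w : ℂ) => -log (1 - zf χ γ p w j))
    (u := fun p : Nat.Primes => 2 * (p : ℝ) ^ (-(1 + σ)))
    ((Nat.Primes.summable_rpow.mpr (by linarith)).mul_left 2)
    (fun p w hw => by
      refine DifferentiableAt.differentiableWithinAt ?_
      have hsl : 1 - zf χ γ p w j ∈ slitPlane := by
        rw [sub_eq_add_neg]
        refine Complex.mem_slitPlane_of_norm_lt_one ?_
        rw [norm_neg]
        exact lt_of_le_of_lt (hb2 p w hw) (by norm_num)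
      exact (DifferentiableAt.clog ((differentiableAt_const (1 : ℂ)).sub
        (zf_diff χ γ p p.2 j w)) hsl).neg)
    hopen
    (fun p w hw => by
      have hw' : σ < w.re := hw
      refine (Pool.T6.H82.KS.norm_log_one_sub_le _ (hb2 p w hw)).trans ?_
      have hp1 : (1 : ℝ) ≤ (p : ℝ) := by exact_mod_cast p.2.one_lt.le
      have h2 : (p : ℝ) ^ (-(1 + w.re)) ≤ (p : ℝ) ^ (-(1 + σ)) :=
        Real.rpow_le_rpow_of_exponent_le hp1 (by linarith)
      have h3 := zf_norm_le χ γ p p.2 w j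
      linarith)
  exact (h s hσ2).differentiableAt (hopen.mem_nhds hσ2)

/-- the first order part converges to the right of 1 -/
lemma Dat.summable_u (h : Dat q κ c χ γ f A θ) (s : ℂ) (hs : 1 < s.re) :
    Summable fun p : Nat.Primes => ((uf f A p : ℝ) : ℂ) * ((p : ℕ) : ℂ) ^ (-s) := by
  set C : ℝ := ∑ j, c j with hC
  have hC0 : 0 ≤ C := Finset.sum_nonneg fun j _ => (h.c0 j).le
  refine Summable.of_norm_bounded (g := fun p : Nat.Primes => (2 + C) * ((p : ℕ) : ℝ) ^ (-s.re))
    ((Nat.Primes.summable_rpow.mpr (by linarith)).mul_left _) fun p => ?_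
  rw [norm_mul, natCast_cpow_norm p p.2, Complex.norm_real, Real.norm_eq_abs,
    abs_of_nonneg (uf_nonneg f A p)]
  refine mul_le_mul_of_nonneg_right ?_ (by positivity)
  have h1 : |(f p).re| ≤ 1 := (Complex.abs_re_le_norm _).trans (h.norm_le_one p p.2)
  have h2 : |A p| ≤ C := by
    have h3 := h.real p p.2
    have h4 : ‖(A p : ℂ)‖ ≤ C * 1 := by
      rw [← h3]
      refine Pool.T6.H82.KS.norm_wsum_le c (fun j => (h.c0 j).le) _ _ fun j => ?_
      refine (zf_norm_le χ γ p p.2 0 j).trans ?_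
      have hp1 : (1 : ℝ) ≤ (p : ℕ) := by exact_mod_cast p.2.one_lt.le
      exact Real.rpow_le_one_of_one_le_of_nonpos hp1 (by simp)
    rwa [Complex.norm_real, Real.norm_eq_abs, mul_one] at h4
  unfold uf
  refine max_le ?_ (by linarith)
  have := (abs_le.mp h1).2
  have := (abs_le.mp h2).2
  linarith

/-- the identity to the right of 1 -/
lemma Dat.log_id (h : Dat q κ c χ γ f A θ) (s : ℂ) (hs : 1 < s.re) :
    LS f s + LS (cj f) s + ∑ j, (c j : ℂ) * La χ γ j s = LSeries (ac f A) s + V c χ γ f A s := by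
  have h1 := summable_lin f h.norm_le_one s hs
  have h2 := summable_lin (cj f) (fun p hp => by rw [cj_norm]; exact h.norm_le_one p hp) s hs
  have hu := h.summable_u s hs
  have hth := h.th0
  have hv := h.vs_summable s (by linarith)
  have l1 := h1.clog_one_sub.neg
  have l2 := h2.clog_one_sub.neg
  have l3 : ∀ j, Summable fun p : Nat.Primes => -log (1 - zf χ γ p s j) := by
    intro j
    refine DirichletCharacter.summable_neg_log_one_sub_mul_prime_cpow (χ j) ?_
    have : 0 < s.re := by linarith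
    simpa using this
  rw [(ac_hasSum f A s hu).LSeries_eq]
  unfold LS La V
  simp_rw [← tsum_mul_left]
  rw [← Summable.tsum_finsetSum fun j _ => (l3 j).mul_left _, ← l1.tsum_add l2,
    ← (l1.add l2).tsum_add (summable_sum fun j _ => (l3 j).mul_left _), ← hu.tsum_add hv]
  refine tsum_congr fun p => ?_
  have e1 : ∑ j, (c j : ℂ) * zf χ γ p s j = (A p : ℂ) * ((p : ℕ) : ℂ) ^ (-s) := by
    rw [← h.real p p.2, Finset.sum_mul]
    refine Finset.sum_congr rfl fun j _ => ?_
    rw [zf_shift χ γ p p.2 s j]; ring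
  have e2 : ∑ j, (c j : ℂ) * -log (1 - zf χ γ p s j) =
      (A p : ℂ) * ((p : ℕ) : ℂ) ^ (-s) - ∑ j, (c j : ℂ) * ww (zf χ γ p s j) := by
    rw [← e1, ← Finset.sum_sub_distrib]
    refine Finset.sum_congr rfl fun j _ => ?_
    unfold ww; ring
  have e3 : ((2 * (f p).re : ℝ) : ℂ) = f p + cj f p := by
    rw [cj_apply, Complex.add_conj]
  have e4 : ((uf f A p : ℝ) : ℂ) = ((ef f A p : ℝ) : ℂ) + (f p + cj f p) + (A p : ℂ) := by
    have := uf_sub_ef f A p
    rw [← e3]
    have h5 : uf f A p = ef f A p + 2 * (f p).re + A p := by linarith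
    rw [h5]; push_cast; ring
  rw [e2, e4]
  unfold vs ww
  ring

lemma Dat.exp_LS (h : Dat q κ c χ γ f A θ) (s : ℂ) (hs : 1 < s.re) :
    exp (LS f s) = s * Phi (fun n => f n) s ∧ exp (LS (cj f) s) = s * Phi (fun n => cj f n) s := by
  have key : ∀ g : ArithmeticFunction ℂ, g 1 = 1 → (∀ m n, g (m * n) = g m * g n) →
      Dec (fun n => g n) θ → exp (LS g s) = s * Phi (fun n => g n) s := by
    intro g g1 gm gd
    have h1 := dec_summable (fun n => g n) θ h.th0 gd s hs
    have h2 := (cm_exp_log g g1 gm s (by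
      refine Summable.congr h1.norm fun n => ?_
      rcases Nat.eq_zero_or_pos n with h0 | h0
      · subst h0; simp
      · rw [LSeries.term_of_ne_zero h0.ne', norm_div, Complex.norm_natCast_cpow_of_pos h0,
          Real.rpow_neg (Nat.cast_nonneg n), div_eq_mul_inv])).1
    rw [← (dec_hasSum (fun n => g n) θ h.th0 gd s hs).LSeries_eq, ← h2]
    rfl
  refine ⟨key f h.one h.mul h.dec, key (cj f) ?_ ?_ (dec_cj f θ h.dec)⟩
  · rw [cj_apply, h.one, map_one]
  · intro m n; rw [cj_apply, h.mul, map_mul]; rfl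

open Classical in
/-- the factors without zeros on the real axis -/
noncomputable def Pq (χ : κ → DirichletCharacter ℂ q) (γ : κ → ℝ) (j : κ) (s : ℂ) : ℂ :=
  if χ j = 1 ∧ γ j = 0 then 1 else pf (χ j) (1 + s - I * γ j)

/-- all factors -/
noncomputable def GG (χ : κ → DirichletCharacter ℂ q) (γ : κ → ℝ) (f : ArithmeticFunction ℂ) :
    Bool ⊕ (κ ⊕ κ) → ℂ → ℂ :=
  Sum.elim (fun b s => if b then Phi (fun n => f n) s else Phi (fun n => cj f n) s)
    (Sum.elim (fun j s => Kf (χ j) (1 + s - I * γ j)) (fun j s => Pq χ γ j s))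

/-- the exponents -/
noncomputable def dd (c : κ → ℝ) : Bool ⊕ (κ ⊕ κ) → ℝ :=
  Sum.elim (fun _ => 1) (Sum.elim c (fun j => -c j))

open Classical in
/-- the local logarithms -/
noncomputable def Lg (χ : κ → DirichletCharacter ℂ q) (γ : κ → ℝ) (f : ArithmeticFunction ℂ) :
    Bool ⊕ (κ ⊕ κ) → ℂ → ℂ :=
  Sum.elim (fun b s => (if b then LS f s else LS (cj f) s) - log s)
    (Sum.elim (fun j s => log (pf (χ j) (1 + s - I * γ j)) + La χ γ j s)
      (fun j s => if χ j = 1 ∧ γ j = 0 then 0 else log (pf (χ j) (1 + s - I * γ j))))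

lemma pf_slit (χ : κ → DirichletCharacter ℂ q) (γ : κ → ℝ) (j : κ) (s : ℂ) (hs : 0 < s.re) :
    pf (χ j) (1 + s - I * γ j) ∈ slitPlane := by
  unfold pf
  split_ifs
  · left
    simpa using hs
  · exact one_mem_slitPlane

lemma pfc_diff (χ : κ → DirichletCharacter ℂ q) (γ : κ → ℝ) (j : κ) (s : ℂ) :
    DifferentiableAt ℂ (fun s => pf (χ j) (1 + s - I * γ j)) s :=
  DifferentiableAt.comp (g := pf (χ j)) s (pf_diff (χ j) _) (by fun_prop)

lemma Pq_diff (χ : κ → DirichletCharacter ℂ q) (γ : κ → ℝ) (j : κ) (s : ℂ) :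
    DifferentiableAt ℂ (Pq χ γ j) s := by
  unfold Pq
  by_cases h : χ j = 1 ∧ γ j = 0
  · simp only [if_pos h]; exact differentiableAt_const _
  · simp only [if_neg h]; exact pfc_diff χ γ j s

/-- the zeros of the factors -/
lemma Pq_ne_zero (χ : κ → DirichletCharacter ℂ q) (γ : κ → ℝ) (j : κ) (s : ℂ)
    (hs : s.re ≠ 0 ∨ s.im = 0) : Pq χ γ j s ≠ 0 := by
  unfold Pq
  split_ifs with h
  · exact one_ne_zero
  · unfold pf
    split_ifs with h1
    · intro h2
      have h3 : γ j ≠ 0 := fun h4 => h ⟨h1, h4⟩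
      have h5 := congrArg Complex.re h2
      have h6 := congrArg Complex.im h2
      simp at h5 h6
      rcases hs with hs | hs
      · exact hs h5
      · rw [hs] at h6
        apply h3
        linarith
    · exact one_ne_zero

lemma Dat.GG_diff (h : Dat q κ c χ γ f A θ) (k : Bool ⊕ (κ ⊕ κ)) (s : ℂ) (hs : -θ < s.re) :
    DifferentiableAt ℂ (GG χ γ f k) s := by
  rcases k with (b | j | j)
  · cases b
    · exact Phi_diff (fun n => cj f n) θ h.th0 (dec_cj f θ h.dec) s hs
    · exact Phi_diff (fun n => f n) θ h.th0 h.dec s hs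
  · exact DifferentiableAt.comp (g := Kf (χ j)) s (Kf_diff (χ j) _) (by fun_prop)
  · exact Pq_diff χ γ j s

/-- the facts near the point 3 -/
lemma Dat.near (h : Dat q κ c χ γ f A θ) :
    (∀ k, ∀ᶠ s in 𝓝 (3 : ℂ), DifferentiableAt ℂ (Lg χ γ f k) s) ∧
    (∀ k, ∀ᶠ s in 𝓝 (3 : ℂ), GG χ γ f k s = exp (Lg χ γ f k s)) ∧
    (∀ᶠ s in 𝓝 (3 : ℂ), ∑ k, (dd c k : ℂ) * Lg χ γ f k s =
      LSeries (ac f A) s + V c χ γ f A s) := by
  classical
  have hpos : ∀ᶠ s : ℂ in 𝓝 3, 1 < s.re :=
    (isOpen_lt continuous_const Complex.continuous_re).mem_nhds (by simp)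
  refine ⟨?_, ?_, ?_⟩
  · rintro (b | j | j)
    · filter_upwards [hpos] with s hs
      have hlog : DifferentiableAt ℂ (fun s : ℂ => Complex.log s) s :=
        differentiableAt_id.clog (Or.inl (by show 0 < s.re; linarith))
      cases b
      · exact (LS_diff (cj f) (fun p hp => by rw [cj_norm]; exact h.norm_le_one p hp) s hs).sub hlog
      · exact (LS_diff f h.norm_le_one s hs).sub hlog
    · filter_upwards [hpos] with s hs
      have hs0 : 0 < s.re := by linarith
      exact ((pfc_diff χ γ j s).clog (pf_slit χ γ j s hs0)).add (La_diff' χ γ j s hs0)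
    · filter_upwards [hpos] with s hs
      have hs0 : 0 < s.re := by linarith
      show DifferentiableAt ℂ (fun s => if χ j = 1 ∧ γ j = 0 then 0 else
        log (pf (χ j) (1 + s - I * γ j))) s
      by_cases hj : χ j = 1 ∧ γ j = 0
      · simp only [if_pos hj]; exact differentiableAt_const _
      · simp only [if_neg hj]; exact (pfc_diff χ γ j s).clog (pf_slit χ γ j s hs0)
  · rintro (b | j | j)
    · filter_upwards [hpos] with s hs
      have hs0 : s ≠ 0 := by rintro rfl; simp at hs; linarith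
      obtain ⟨e1, e2⟩ := h.exp_LS s hs
      cases b
      · show Phi (fun n => cj f n) s = exp (LS (cj f) s - log s)
        rw [Complex.exp_sub, e2, Complex.exp_log hs0]
        field_simp
      · show Phi (fun n => f n) s = exp (LS f s - log s)
        rw [Complex.exp_sub, e1, Complex.exp_log hs0]
        field_simp
    · filter_upwards [hpos] with s hs
      have hs0 : 0 < s.re := by linarith
      show Kf (χ j) (1 + s - I * γ j) = exp (log (pf (χ j) (1 + s - I * γ j)) + La χ γ j s)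
      rw [Complex.exp_add, Complex.exp_log (Complex.slitPlane_ne_zero (pf_slit χ γ j s hs0)),
        exp_La χ γ j s hs0]
    · filter_upwards [hpos] with s hs
      have hs0 : 0 < s.re := by linarith
      show Pq χ γ j s = exp (if χ j = 1 ∧ γ j = 0 then 0 else log (pf (χ j) (1 + s - I * γ j)))
      unfold Pq
      split_ifs with hj
      · rw [Complex.exp_zero]
      · rw [Complex.exp_log (Complex.slitPlane_ne_zero (pf_slit χ γ j s hs0))]
  · filter_upwards [hpos] with s hs
    rw [← h.log_id s hs]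
    simp only [Fintype.sum_sum_type, dd, Lg, Sum.elim_inl, Sum.elim_inr, Fintype.sum_bool]
    have e1 : ∀ j, ((-c j : ℝ) : ℂ) * (if χ j = 1 ∧ γ j = 0 then 0 else
        log (pf (χ j) (1 + s - I * γ j))) =
        -((c j : ℂ) * log (pf (χ j) (1 + s - I * γ j))) +
          ((c j * Pool.T6.H82.KS.ee χ γ j : ℝ) : ℂ) * log s := by
      intro j
      unfold Pool.T6.H82.KS.ee
      by_cases hj : χ j = 1 ∧ γ j = 0
      · rw [if_pos hj, if_pos hj]
        have e2 : pf (χ j) (1 + s - I * γ j) = s := by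
          unfold pf
          rw [if_pos hj.1, hj.2]
          push_cast; ring
        rw [e2]; push_cast; ring
      · rw [if_neg hj, if_neg hj]; push_cast; ring
    simp only [e1, mul_add, Finset.sum_add_distrib, Finset.sum_neg_distrib]
    rw [← Finset.sum_mul, ← Complex.ofReal_sum, h.triv]
    simp
    ring

lemma halfplane_open (σ : ℝ) : IsOpen {s : ℂ | σ < s.re} :=
  isOpen_lt continuous_const Complex.continuous_re

lemma halfplane_conn (σ : ℝ) : IsPreconnected {s : ℂ | σ < s.re} :=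
  (convex_halfSpace_re_gt σ).isPreconnected

lemma H_diff (f : ArithmeticFunction ℂ) (A : ℕ → ℝ) (σ : ℝ)
    (hH : LSeries.abscissaOfAbsConv (ac f A) ≤ (σ : EReal)) (s : ℂ) (hs : σ < s.re) :
    DifferentiableAt ℂ (LSeries (ac f A)) s :=
  (LSeries_hasDerivAt (lt_of_le_of_lt hH (by exact_mod_cast hs))).differentiableAt

/-- the logarithmic derivative identity -/
lemma Dat.nn (h : Dat q κ c χ γ f A θ) [DecidableEq κ] (σ : ℝ) (hσ : -θ ≤ σ) (hσ2 : σ < 3)
    (hH : LSeries.abscissaOfAbsConv (ac f A) ≤ (σ : EReal)) :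
    Set.EqOn (NN (GG χ γ f) (fun s => LSeries (ac f A) s + V c χ γ f A s) (dd c)) 0
      {s : ℂ | σ < s.re} := by
  obtain ⟨n1, n2, n3⟩ := h.near
  exact NN_zero _ (halfplane_open σ) (halfplane_conn σ) (GG χ γ f) _ (dd c)
    (fun k s hs => (h.GG_diff k s (lt_of_le_of_lt hσ hs)).differentiableWithinAt)
    (fun s hs => ((H_diff f A σ hH s hs).add
      (h.V_diff s (lt_of_le_of_lt hσ hs))).differentiableWithinAt) 3 (by simpa using hσ2)
    (Lg χ γ f) n1 n2 n3

/-- the identity on the real axis -/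
lemma Dat.prod (h : Dat q κ c χ γ f A θ) [DecidableEq κ] (σ : ℝ) (hσ : -θ ≤ σ) (hσ2 : σ < 3)
    (hH : LSeries.abscissaOfAbsConv (ac f A) ≤ (σ : EReal)) :
    ∃ C : ℝ, 0 < C ∧ ∀ x : ℝ, σ < x → x < 3 →
      ∏ k, ‖GG χ γ f k x‖ ^ dd c k =
        C * Real.exp (LSeries (ac f A) x + V c χ γ f A x).re := by
  obtain ⟨n1, n2, n3⟩ := h.near
  obtain ⟨C, hC0, hC⟩ := cont_abs _ (halfplane_open σ) (halfplane_conn σ) (GG χ γ f)
    (fun s => LSeries (ac f A) s + V c χ γ f A s) (dd c)
    (fun k s hs => (h.GG_diff k s (lt_of_le_of_lt hσ hs)).differentiableWithinAt)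
    (fun s hs => ((H_diff f A σ hH s hs).add
      (h.V_diff s (lt_of_le_of_lt hσ hs))).differentiableWithinAt) 3 (by simpa using hσ2)
    (Lg χ γ f) n1 n2 n3 σ 3 hσ2 (fun x hx => by
      show σ < ((x : ℝ) : ℂ).re
      rw [Complex.ofReal_re]; exact hx.1) (by
      rintro (b | j | j)
      · left; exact one_pos
      · left; exact h.c0 j
      · right
        intro x _
        exact Pq_ne_zero χ γ j x (Or.inr (Complex.ofReal_im x)))
  exact ⟨C, hC0, fun x h1 h2 => hC x ⟨h1, h2⟩⟩

end Pool.T6.H82.OS
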