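import Mathlib
import Pool.Agent.T6.H82.OS.Core

/-!
One-sided classes of completely multiplicative functions: the abscissa of the first order part
-/

set_option autoImplicit false
set_option linter.unusedSectionVars false

open Complex Finset Filter Topology ArithmeticFunction
open Pool.H232R3
open Pool.T6.H82.KS (zf zz zf_norm_le zf_diff La Kf pf Kf_diff pf_diff exp_La cm_exp_log NN NN_zero
  cont_abs)
open Pool.Agent.T6.H78.CK (Dec ww ww_bound Phi_diff dec_bound dec_hasSum dec_summable dec_cj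
  dec_prime)
open scoped ComplexOrder

namespace Pool.T6.H82.OS

variable {q : ℕ} [NeZero q] {κ : Type} [Fintype κ]
variable {c : κ → ℝ} {χ : κ → DirichletCharacter ℂ q} {γ : κ → ℝ} {f : ArithmeticFunction ℂ}
  {A : ℕ → ℝ} {θ : ℝ}

lemma Dat.ab1 (h : Dat q κ c χ γ f A θ) (s : ℂ) (hs : 1 < s.re) : LSeriesSummable (ac f A) s :=
  (ac_hasSum f A s (h.summable_u s hs)).LSeriesSummable

lemma ac_nonneg' (f : ArithmeticFunction ℂ) (A : ℕ → ℝ) (n : ℕ) : 0 ≤ ac f A n := by
  have := ac_nonneg f A n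
  rw [Complex.le_def]
  exact ⟨this.1, this.2.symm⟩

lemma logMul_nonneg (f : ArithmeticFunction ℂ) (A : ℕ → ℝ) (n : ℕ) :
    0 ≤ LSeries.logMul (ac f A) n := by
  unfold LSeries.logMul
  refine mul_nonneg ?_ (ac_nonneg' f A n)
  rw [← Complex.natCast_log]
  exact_mod_cast Real.log_natCast_nonneg n

/-- the real part of the first order part is nonnegative -/
lemma H_nonneg (f : ArithmeticFunction ℂ) (A : ℕ → ℝ) (x : ℝ) :
    0 ≤ (LSeries (ac f A) x).re := by
  unfold LSeries
  by_cases hs : Summable (LSeries.term (ac f A) x)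
  · have h2 : (0 : ℂ) ≤ ∑' n, LSeries.term (ac f A) x n :=
      tsum_nonneg fun n => LSeries.term_nonneg (ac_nonneg' f A n) x
    exact (Complex.le_def.mp h2).1
  · rw [tsum_eq_zero_of_not_summable hs]; simp

lemma Dat.GG_cont (h : Dat q κ c χ γ f A θ) (k : Bool ⊕ (κ ⊕ κ)) (x : ℝ) (hx : -θ < x) :
    ContinuousAt (fun x : ℝ => GG χ γ f k x) x := by
  have h1 := (h.GG_diff k x (by rw [Complex.ofReal_re]; exact hx)).continuousAt
  exact ContinuousAt.comp (f := fun x : ℝ => (x : ℂ)) h1 Complex.continuous_ofReal.continuousAt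

lemma Dat.V_cont (h : Dat q κ c χ γ f A θ) (x : ℝ) (hx : -θ < x) :
    ContinuousAt (fun x : ℝ => (V c χ γ f A x).re) x := by
  have h1 := (h.V_diff x (by rw [Complex.ofReal_re]; exact hx)).continuousAt
  exact Complex.continuous_re.continuousAt.comp
    (ContinuousAt.comp (f := fun x : ℝ => (x : ℂ)) h1 Complex.continuous_ofReal.continuousAt)

/-- no factor vanishes at the abscissa of the first order part -/
lemma Dat.ne_zero_at (h : Dat q κ c χ γ f A θ) [DecidableEq κ] (σ : ℝ) (hσ : -θ < σ) (hσ2 : σ < 3)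
    (hH : LSeries.abscissaOfAbsConv (ac f A) ≤ (σ : EReal)) (k : Bool ⊕ (κ ⊕ κ)) :
    GG χ γ f k σ ≠ 0 := by
  obtain ⟨C, hC0, hC⟩ := h.prod σ hσ.le hσ2 hH
  have hcont : ContinuousAt (fun x : ℝ => ∏ k, ‖GG χ γ f k x‖ ^ dd c k) σ := by
    refine tendsto_finsetProd _ fun k _ => ?_
    refine ContinuousAt.rpow_const (h.GG_cont k σ hσ).norm ?_
    rcases k with (b | j | j)
    · right; exact zero_le_one
    · right; exact (h.c0 j).le
    · left
      exact norm_ne_zero_iff.mpr (Pq_ne_zero χ γ j σ (Or.inr (Complex.ofReal_im σ)))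
  have hV : ContinuousAt (fun x : ℝ => C * Real.exp (V c χ γ f A x).re) σ :=
    (continuousAt_const).mul (Real.continuous_exp.continuousAt.comp (h.V_cont σ hσ))
  have hle : C * Real.exp (V c χ γ f A σ).re ≤ ∏ k, ‖GG χ γ f k σ‖ ^ dd c k := by
    refine le_of_tendsto_of_tendsto (b := 𝓝[>] σ) (hV.tendsto.mono_left nhdsWithin_le_nhds)
      (hcont.tendsto.mono_left nhdsWithin_le_nhds) ?_
    filter_upwards [Ioo_mem_nhdsGT hσ2] with x hx
    rw [hC x hx.1 hx.2]
    refine mul_le_mul_of_nonneg_left (Real.exp_le_exp.mpr ?_) hC0.le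
    rw [Complex.add_re]
    linarith [H_nonneg f A x]
  intro h0
  have h1 : ∏ k, ‖GG χ γ f k σ‖ ^ dd c k = 0 := by
    refine Finset.prod_eq_zero (Finset.mem_univ k) ?_
    rw [h0, norm_zero, Real.zero_rpow]
    rcases k with (b | j | j)
    · exact one_ne_zero
    · exact (h.c0 j).ne'
    · exact absurd h0 (Pq_ne_zero χ γ j σ (Or.inr (Complex.ofReal_im σ)))
  rw [h1] at hle
  have := mul_pos hC0 (Real.exp_pos (V c χ γ f A σ).re)
  linarith

/-- the logarithmic derivatives where nothing vanishes -/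
lemma logderiv_of_NN {K : Type} [Fintype K] [DecidableEq K] (G : K → ℂ → ℂ) (T : ℂ → ℂ)
    (d : K → ℝ) (s : ℂ) (h0 : NN G T d s = 0) (hne : ∀ k, G k s ≠ 0) :
    ∑ k, (d k : ℂ) * (deriv (G k) s / G k s) = deriv T s := by
  have hP : ∏ j, G j s ≠ 0 := Finset.prod_ne_zero_iff.mpr fun j _ => hne j
  have h10 : (∑ k, (d k : ℂ) * (deriv (G k) s / G k s)) * ∏ j, G j s
      = ∑ k, (d k : ℂ) * deriv (G k) s * ∏ j ∈ univ.erase k, G j s := by
    rw [Finset.sum_mul]
    refine Finset.sum_congr rfl fun k _ => ?_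
    rw [← Finset.mul_prod_erase univ (fun j => G j s) (Finset.mem_univ k)]
    have := hne k
    field_simp
  unfold NN at h0
  rw [← h10, ← sub_mul] at h0
  rcases mul_eq_zero.mp h0 with h | h
  · exact sub_eq_zero.mp h
  · exact absurd h hP

/-- the first order part converges absolutely to the right of `-θ` -/
theorem Dat.absc (h : Dat q κ c χ γ f A θ) :
    LSeries.abscissaOfAbsConv (ac f A) ≤ ((-θ : ℝ) : EReal) := by
  classical
  by_contra hcon
  push Not at hcon
  set a := LSeries.abscissaOfAbsConv (ac f A) with ha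
  have ha1 : a ≤ ((1 : ℝ) : EReal) :=
    LSeries.abscissaOfAbsConv_le_of_forall_lt_LSeriesSummable fun y hy =>
      h.ab1 y (by rw [Complex.ofReal_re]; exact hy)
  have hatop : a ≠ ⊤ := (lt_of_le_of_lt ha1 (EReal.coe_lt_top 1)).ne
  have habot : a ≠ ⊥ := (lt_of_le_of_lt bot_le hcon).ne'
  obtain ⟨σ, hσ⟩ : ∃ σ : ℝ, a = (σ : EReal) := ⟨a.toReal, (EReal.coe_toReal hatop habot).symm⟩
  rw [hσ] at hcon ha1
  have hσ1 : -θ < σ := by exact_mod_cast hcon
  have hσ2 : σ ≤ 1 := by exact_mod_cast ha1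
  have hH : LSeries.abscissaOfAbsConv (ac f A) ≤ (σ : EReal) := hσ.le
  have hne := h.ne_zero_at σ hσ1 (by linarith) hH
  have hopen := halfplane_open (-θ)
  have hmem : ((σ : ℝ) : ℂ) ∈ {s : ℂ | -θ < s.re} := by
    show -θ < ((σ : ℝ) : ℂ).re
    rw [Complex.ofReal_re]; exact hσ1
  have hev : ∀ᶠ s in 𝓝 ((σ : ℝ) : ℂ), (∀ k, GG χ γ f k s ≠ 0) ∧ -θ < s.re := by
    refine Filter.Eventually.and ?_ (hopen.mem_nhds hmem)
    refine eventually_all.mpr fun k => ?_
    exact ((h.GG_diff k σ hmem).continuousAt).eventually_ne (hne k)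
  obtain ⟨η, hη, hball⟩ := Metric.eventually_nhds_iff_ball.mp hev
  have hVd : DifferentiableOn ℂ (deriv (V c χ γ f A)) {s : ℂ | -θ < s.re} :=
    DifferentiableOn.deriv (fun s hs => (h.V_diff s hs).differentiableWithinAt) hopen
  have hGd : ∀ k, DifferentiableOn ℂ (deriv (GG χ γ f k)) {s : ℂ | -θ < s.re} := fun k =>
    DifferentiableOn.deriv (fun s hs => (h.GG_diff k s hs).differentiableWithinAt) hopen
  obtain ⟨x, hx, hxs⟩ := landau (LSeries.logMul (ac f A)) (logMul_nonneg f A) σ η hη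
    (fun s hs => LSeriesSummable_logMul_of_lt_re (lt_of_le_of_lt hH (by exact_mod_cast hs)))
    (fun s => deriv (V c χ γ f A) s - ∑ k, (dd c k : ℂ) * (deriv (GG χ γ f k) s / GG χ γ f k s))
    (by
      intro s hs
      obtain ⟨h1, h2⟩ := hball s hs
      refine DifferentiableAt.differentiableWithinAt ?_
      refine DifferentiableAt.sub (hVd.differentiableAt (hopen.mem_nhds h2)) ?_
      refine DifferentiableAt.fun_sum fun k _ => DifferentiableAt.const_mul ?_ _
      exact ((hGd k).differentiableAt (hopen.mem_nhds h2)).div (h.GG_diff k s h2) (h1 k))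
    (by
      intro s hs hsσ
      obtain ⟨h1, h2⟩ := hball s hs
      have h3 := h.nn σ hσ1.le (by linarith) hH (show s ∈ {s : ℂ | σ < s.re} from hsσ)
      have h4 := logderiv_of_NN (GG χ γ f) _ (dd c) s h3 h1
      have hlt : LSeries.abscissaOfAbsConv (ac f A) < s.re :=
        lt_of_le_of_lt hH (by exact_mod_cast hsσ)
      have h5 : deriv (fun s => LSeries (ac f A) s + V c χ γ f A s) s
          = -LSeries (LSeries.logMul (ac f A)) s + deriv (V c χ γ f A) s := by
        rw [deriv_fun_add (H_diff f A σ hH s hsσ) (h.V_diff s h2), LSeries_deriv hlt]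
      show deriv (V c χ γ f A) s - ∑ k, (dd c k : ℂ) * (deriv (GG χ γ f k) s / GG χ γ f k s)
        = LSeries (LSeries.logMul (ac f A)) s
      rw [h4, h5]
      ring)
  have h6 := hxs.abscissaOfAbsConv_le
  rw [LSeries.abscissaOfAbsConv_logMul, ← ha, hσ, Complex.ofReal_re] at h6
  have h7 : σ ≤ x := by exact_mod_cast h6
  linarith

end Pool.T6.H82.OS
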