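import Mathlib
import Pool.Agent.T6.H82.OS.Abs

/-!
One-sided classes of completely multiplicative functions: the zero-free region
-/

set_option autoImplicit false
set_option linter.unusedSectionVars false

open Complex Finset Filter Topology ArithmeticFunction
open Pool.H232R3
open Pool.T6.H82.KS (zf zz zf_norm_le zf_diff La Kf pf Kf_diff pf_diff exp_La cm_exp_log NN NN_zero
  cont_abs Kf_ne_zero Kf_eq')
open Pool.Agent.T6.H78.CK (Dec)

namespace Pool.T6.H82.OS

/-- the orders of vanishing add up to zero -/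
lemma order_arg {K : Type} [Fintype K] [DecidableEq K] (G : K → ℂ → ℂ) (T : ℂ → ℂ) (d : K → ℝ)
    (s0 : ℂ) (hG : ∀ k, AnalyticAt ℂ (G k) s0) (hT : AnalyticAt ℂ T s0)
    (hnz : ∀ k, ¬ ∀ᶠ s in 𝓝 s0, G k s = 0) (hN : ∀ᶠ s in 𝓝 s0, NN G T d s = 0)
    (hd : ∀ k, 0 ≤ d k ∨ G k s0 ≠ 0) (k : K) (hk : 0 < d k) : G k s0 ≠ 0 := by
  have hex := fun k => (hG k).exists_eventuallyEq_pow_smul_nonzero_iff.mpr (hnz k)
  choose n g hga hg0 hgeq using hex
  have hgeq' : ∀ᶠ s in 𝓝 s0, ∀ k, G k s = (s - s0) ^ n k • g k s := eventually_all.mpr hgeq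
  have hgne : ∀ᶠ s in 𝓝 s0, ∀ k, g k s ≠ 0 :=
    eventually_all.mpr fun k => (hga k).continuousAt.eventually_ne (hg0 k)
  have hgan : ∀ᶠ s in 𝓝 s0, ∀ k, AnalyticAt ℂ (g k) s :=
    eventually_all.mpr fun k => (hga k).eventually_analyticAt
  have key : ∀ᶠ s in 𝓝[≠] s0, ∑ k, (d k : ℂ) * ((n k : ℂ) + (s - s0) * (deriv (g k) s / g k s))
      = (s - s0) * deriv T s := by
    have h1 := (hgeq'.eventually_nhds.and (hgne.and (hgan.and hN)))
    filter_upwards [h1.filter_mono nhdsWithin_le_nhds, self_mem_nhdsWithin] with s hs hsne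
    obtain ⟨h2, h3, h4, h5⟩ := hs
    have hss : s - s0 ≠ 0 := sub_ne_zero.mpr hsne
    have hGs : ∀ k, G k s = (s - s0) ^ n k * g k s := fun k => by
      rw [h2.self_of_nhds k, smul_eq_mul]
    have hGne : ∀ k, G k s ≠ 0 := fun k => by
      rw [hGs k]; exact mul_ne_zero (pow_ne_zero _ hss) (h3 k)
    have hder : ∀ k, (s - s0) * deriv (G k) s = ((n k : ℂ) * g k s + (s - s0) * deriv (g k) s)
        * (s - s0) ^ n k := by
      intro k
      have e1 : G k =ᶠ[𝓝 s] fun s => (s - s0) ^ n k * g k s := by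
        filter_upwards [h2] with w hw
        rw [hw k, smul_eq_mul]
      have h6 : HasDerivAt (fun s : ℂ => (s - s0) ^ n k) ((n k : ℂ) * (s - s0) ^ (n k - 1)) s := by
        have := ((hasDerivAt_id' s).sub_const s0).fun_pow (n k)
        simpa using this
      have h7 := (h6.mul (h4 k).differentiableAt.hasDerivAt).deriv
      rw [e1.deriv_eq]
      have h8 : deriv (fun s : ℂ => (s - s0) ^ n k * g k s) s
          = (n k : ℂ) * (s - s0) ^ (n k - 1) * g k s + (s - s0) ^ n k * deriv (g k) s := h7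
      rw [h8]
      rcases Nat.eq_zero_or_pos (n k) with h0 | h0
      · rw [h0]; simp
      · obtain ⟨m, hm⟩ : ∃ m, n k = m + 1 := ⟨n k - 1, by omega⟩
        rw [hm, Nat.add_sub_cancel, pow_succ]
        ring
    have h6 := logderiv_of_NN G T d s h5 hGne
    rw [← h6, Finset.mul_sum]
    refine Finset.sum_congr rfl fun k _ => ?_
    have h7 := h3 k
    have h8 : (s - s0) ^ n k ≠ 0 := pow_ne_zero _ hss
    have h9 : (s - s0) * (deriv (G k) s / G k s) = (n k : ℂ) + (s - s0) * (deriv (g k) s / g k s) := by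
      rw [← mul_div_assoc, hder k, hGs k]
      field_simp
    rw [← h9]
    ring
  have hl : Tendsto (fun s => ∑ k, (d k : ℂ) * ((n k : ℂ) + (s - s0) * (deriv (g k) s / g k s)))
      (𝓝[≠] s0) (𝓝 (∑ k, (d k : ℂ) * ((n k : ℂ) + (s0 - s0) * (deriv (g k) s0 / g k s0)))) := by
    have hc : ContinuousAt (fun s => ∑ k, (d k : ℂ) * ((n k : ℂ) + (s - s0) *
        (deriv (g k) s / g k s))) s0 := by
      refine tendsto_finsetSum _ fun k _ => ?_
      refine ContinuousAt.mul continuousAt_const (continuousAt_const.add ?_)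
      refine ContinuousAt.mul (continuousAt_id.sub continuousAt_const) ?_
      exact ((hga k).deriv.continuousAt).div (hga k).continuousAt (hg0 k)
    exact hc.tendsto.mono_left nhdsWithin_le_nhds
  have hr : Tendsto (fun s => (s - s0) * deriv T s) (𝓝[≠] s0) (𝓝 ((s0 - s0) * deriv T s0)) := by
    have hc : ContinuousAt (fun s => (s - s0) * deriv T s) s0 :=
      (continuousAt_id.sub continuousAt_const).mul hT.deriv.continuousAt
    exact hc.tendsto.mono_left nhdsWithin_le_nhds
  have heq := tendsto_nhds_unique (hl.congr' key) hr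
  rw [sub_self, zero_mul] at heq
  simp only [zero_mul, add_zero] at heq
  have hreal : ∑ k, d k * (n k : ℝ) = 0 := by
    have := congrArg Complex.re heq
    rw [Complex.re_sum] at this
    simp_rw [Complex.re_ofReal_mul] at this
    simpa using this
  have hnn : ∀ k ∈ Finset.univ, 0 ≤ d k * (n k : ℝ) := by
    intro k _
    rcases hd k with h | h
    · positivity
    · have hn0 : n k = 0 := by
        by_contra hn
        apply h
        rw [(hgeq k).self_of_nhds, sub_self, zero_pow hn, zero_smul]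
      rw [hn0]; simp
  have h0 := (Finset.sum_eq_zero_iff_of_nonneg hnn).mp hreal k (Finset.mem_univ k)
  have hn0 : n k = 0 := by
    rcases mul_eq_zero.mp h0 with h | h
    · exact absurd h hk.ne'
    · exact_mod_cast h
  rw [(hgeq k).self_of_nhds, hn0, pow_zero, one_smul]
  exact hg0 k

variable {q : ℕ} [NeZero q] {κ : Type} [Fintype κ]
variable {c : κ → ℝ} {χ : κ → DirichletCharacter ℂ q} {γ : κ → ℝ} {f : ArithmeticFunction ℂ}
  {A : ℕ → ℝ} {θ : ℝ}

/-- no factor is identically zero -/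
lemma Dat.not_zero (h : Dat q κ c χ γ f A θ) (k : Bool ⊕ (κ ⊕ κ)) (s0 : ℂ) (hs0 : -θ < s0.re) :
    ¬ ∀ᶠ s in 𝓝 s0, GG χ γ f k s = 0 := by
  intro hz
  have hA : AnalyticOnNhd ℂ (GG χ γ f k) {s : ℂ | -θ < s.re} :=
    DifferentiableOn.analyticOnNhd (fun s hs => (h.GG_diff k s hs).differentiableWithinAt)
      (halfplane_open (-θ))
  have hth := h.th0
  have h1 := hA.eqOn_zero_of_preconnected_of_eventuallyEq_zero (halfplane_conn (-θ)) hs0 hz
    (show (3 : ℂ) ∈ {s : ℂ | -θ < s.re} by
      show -θ < (3 : ℂ).re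
      norm_num; linarith)
  have h2 := (h.near.2.1 k).self_of_nhds
  rw [h1] at h2
  exact Complex.exp_ne_zero _ h2.symm

/-- the factors have no zeros off the imaginary axis -/
theorem Dat.free (h : Dat q κ c χ γ f A θ) (j : κ) (s : ℂ) (hs : -θ < s.re) (hs0 : s.re ≠ 0) :
    Kf (χ j) (1 + s - I * γ j) ≠ 0 := by
  classical
  have hopen := halfplane_open (-θ)
  have hH := h.absc
  have hnn := h.nn (-θ) le_rfl (by linarith [h.th0]) hH
  refine order_arg (GG χ γ f) (fun s => LSeries (ac f A) s + V c χ γ f A s) (dd c) s ?_ ?_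
    (fun k => h.not_zero k s hs) ?_ ?_ (Sum.inr (Sum.inl j)) (h.c0 j)
  · intro k
    exact (DifferentiableOn.analyticOnNhd (fun s hs => (h.GG_diff k s hs).differentiableWithinAt)
      hopen) s hs
  · exact (DifferentiableOn.analyticOnNhd (fun s hs => ((H_diff f A (-θ) hH s hs).add
      (h.V_diff s hs)).differentiableWithinAt) hopen) s hs
  · filter_upwards [hopen.mem_nhds hs] with w hw
    exact hnn hw
  · rintro (b | j | j)
    · left; exact zero_le_one
    · left; exact (h.c0 j).le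
    · right; exact Pq_ne_zero χ γ j s (Or.inl hs0)

/-- the zero-free region -/
theorem Dat.LFunction_free (h : Dat q κ c χ γ f A θ) (j : κ) (s : ℂ) (hs : 1 - θ < s.re)
    (hs1 : χ j ≠ 1 ∨ s ≠ 1) : DirichletCharacter.LFunction (χ j) s ≠ 0 := by
  rcases le_or_gt 1 s.re with h1 | h1
  · exact DirichletCharacter.LFunction_ne_zero_of_one_le_re (χ j) hs1 h1
  · have hsne : s ≠ 1 := by rintro rfl; simp at h1
    have h2 := h.free j (s - 1 + I * γ j) (by simp; linarith) (by simp; linarith)
    have e : 1 + (s - 1 + I * (γ j : ℂ)) - I * γ j = s := by ring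
    rw [e, Kf_eq' _ _ hsne] at h2
    exact right_ne_zero_of_mul h2

end Pool.T6.H82.OS
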