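import Mathlib
import Pool.Agent.T6.H82.OS.Zero

/-!
One-sided classes of completely multiplicative functions: the second order sum near -1/2
-/

set_option autoImplicit false
set_option linter.unusedSectionVars false

open Complex Finset Filter Topology ArithmeticFunction
open Pool.H232R3
open Pool.T6.H82.KS (zf zz zf_norm_le zf_diff zz_norm_le zf_mul Q2 prime_sum_low)

namespace Pool.T6.H82.OS

variable {q : ℕ} [NeZero q] {κ : Type} [Fintype κ]

open Classical in
/-- the indicator of the pairs with product the trivial character -/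
noncomputable def pe (χ : κ → DirichletCharacter ℂ q) (γ : κ → ℝ) (i j : κ) : ℝ :=
  if χ i * χ j = 1 ∧ γ i + γ j = 0 then 1 else 0

lemma pe_nonneg (χ : κ → DirichletCharacter ℂ q) (γ : κ → ℝ) (i j : κ) : 0 ≤ pe χ γ i j := by
  unfold pe
  split_ifs <;> norm_num

lemma pe_cases (χ : κ → DirichletCharacter ℂ q) (γ : κ → ℝ) (i j : κ) :
    (pe χ γ i j = 1 ∧ χ i * χ j = 1 ∧ γ i + γ j = 0) ∨ pe χ γ i j = 0 := by
  unfold pe
  split_ifs with h
  · exact Or.inl ⟨rfl, h⟩
  · exact Or.inr rfl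

/-- the order of growth at `-1/2` -/
noncomputable def mu (d : κ → ℝ) (χ : κ → DirichletCharacter ℂ q) (γ : κ → ℝ) : ℝ :=
  ((∑ i, ∑ j, d i * d j * pe χ γ i j) + ∑ i, d i * pe χ γ i i) / 2

/-- the summability and a lower bound for the second order sum -/
theorem quad_low (d : κ → ℝ) (hd : ∀ i, 0 < d i) (χ : κ → DirichletCharacter ℂ q) (γ : κ → ℝ) :
    ∃ C : ℝ, ∀ x : ℝ, -(1 / 2) < x → x < -(1 / 4) →
      Summable (fun p : Nat.Primes => Q2 d (zf χ γ p x)) ∧
      mu d χ γ * Real.log (1 / (1 + 2 * x)) - C ≤ (∑' p : Nat.Primes, Q2 d (zf χ γ p x)).re := by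
  have hlow : ∀ i j : κ, ∃ C : ℝ, ∀ y : ℝ, 1 < y → y < 3 / 2 →
      (pe χ γ i j) * Real.log (1 / (y - 1)) - C
        ≤ (∑' p : Nat.Primes, zz (χ i * χ j) p (y - I * ((γ i + γ j : ℝ) : ℂ))).re :=
    fun i j => prime_sum_low (χ i * χ j) (γ i + γ j) _ (pe_cases χ γ i j)
  choose C hC using hlow
  refine ⟨((∑ i, ∑ j, (d i * d j) * C i j) + ∑ i, d i * C i i) / 2, fun x hx1 hx2 => ?_⟩
  set y : ℝ := 2 + 2 * x with hy
  have hy1 : 1 < y := by rw [hy]; linarith
  have hy2 : y < 3 / 2 := by rw [hy]; linarith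
  -- the second order sum
  have hzzs : ∀ i j : κ, Summable fun p : Nat.Primes =>
      zz (χ i * χ j) p (y - I * ((γ i + γ j : ℝ) : ℂ)) := by
    intro i j
    refine Summable.of_norm_bounded (g := fun p : Nat.Primes => (p : ℝ) ^ (-y))
      (Nat.Primes.summable_rpow.mpr (by linarith)) fun p => ?_
    refine (zz_norm_le (χ i * χ j) p p.2 _).trans (le_of_eq ?_)
    congr 1
    simp
  have hQ : ∀ p : Nat.Primes, Q2 d (zf χ γ p x)
      = ((∑ i, ∑ j, ((d i * d j : ℝ) : ℂ) * zz (χ i * χ j) p (y - I * ((γ i + γ j : ℝ) : ℂ)))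
        + ∑ i, (d i : ℂ) * zz (χ i * χ i) p (y - I * ((γ i + γ i : ℝ) : ℂ))) / 2 := by
    intro p
    unfold Q2
    rw [pow_two, Finset.sum_mul_sum]
    congr 2
    · refine Finset.sum_congr rfl fun i _ => Finset.sum_congr rfl fun j _ => ?_
      rw [← zf_mul χ γ p p.2 x]
      push_cast
      ring
    · refine Finset.sum_congr rfl fun i _ => ?_
      rw [pow_two, zf_mul χ γ p p.2 x]
  have hQsum : HasSum (fun p : Nat.Primes => Q2 d (zf χ γ p x))
      (((∑ i, ∑ j, ((d i * d j : ℝ) : ℂ) * ∑' p : Nat.Primes,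
          zz (χ i * χ j) p (y - I * ((γ i + γ j : ℝ) : ℂ)))
        + ∑ i, (d i : ℂ) * ∑' p : Nat.Primes,
          zz (χ i * χ i) p (y - I * ((γ i + γ i : ℝ) : ℂ))) / 2) := by
    simp_rw [hQ]
    refine HasSum.div_const ?_ _
    refine HasSum.add ?_ ?_
    · exact hasSum_sum fun i _ => hasSum_sum fun j _ => (hzzs i j).hasSum.mul_left _
    · exact hasSum_sum fun i _ => (hzzs i i).hasSum.mul_left _
  refine ⟨hQsum.summable, ?_⟩
  rw [hQsum.tsum_eq]
  set LL : ℝ := Real.log (1 / (y - 1)) with hL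
  rw [show (2 : ℂ) = ((2 : ℝ) : ℂ) by norm_num, Complex.div_ofReal_re, Complex.add_re,
      Complex.re_sum, Complex.re_sum]
  simp_rw [Complex.re_sum, Complex.re_ofReal_mul]
  have h7 : (∑ i, ∑ j, d i * d j * pe χ γ i j) * LL - ∑ i, ∑ j, (d i * d j) * C i j ≤
      ∑ i, ∑ j, (d i * d j) *
      (∑' p : Nat.Primes, zz (χ i * χ j) p (y - I * ((γ i + γ j : ℝ) : ℂ))).re := by
    have : (∑ i, ∑ j, d i * d j * pe χ γ i j) * LL - ∑ i, ∑ j, (d i * d j) * C i j
        = ∑ i, ∑ j, (d i * d j) * (pe χ γ i j * LL - C i j) := by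
      simp_rw [mul_sub, Finset.sum_sub_distrib, Finset.sum_mul]
      congr 1
      exact Finset.sum_congr rfl fun i _ => Finset.sum_congr rfl fun j _ => by ring
    rw [this]
    exact Finset.sum_le_sum fun i _ => Finset.sum_le_sum fun j _ =>
      mul_le_mul_of_nonneg_left (hC i j y hy1 hy2) (mul_nonneg (hd i).le (hd j).le)
  have h8 : (∑ i, d i * pe χ γ i i) * LL - ∑ i, d i * C i i ≤ ∑ i, d i * (∑' p : Nat.Primes,
        zz (χ i * χ i) p (y - I * ((γ i + γ i : ℝ) : ℂ))).re := by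
    have : (∑ i, d i * pe χ γ i i) * LL - ∑ i, d i * C i i
        = ∑ i, d i * (pe χ γ i i * LL - C i i) := by
      simp_rw [mul_sub, Finset.sum_sub_distrib, Finset.sum_mul]
      congr 1
      exact Finset.sum_congr rfl fun j _ => by ring
    rw [this]
    exact Finset.sum_le_sum fun i _ =>
      mul_le_mul_of_nonneg_left (hC i i y hy1 hy2) (hd i).le
  have h13 : 1 + 2 * x = y - 1 := by rw [hy]; ring
  rw [h13, ← hL]
  unfold mu
  rw [le_div_iff₀ (by norm_num : (0 : ℝ) < 2)]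
  have e : (((∑ i, ∑ j, d i * d j * pe χ γ i j) + ∑ i, d i * pe χ γ i i) / 2 * LL
      - ((∑ i, ∑ j, (d i * d j) * C i j) + ∑ i, d i * C i i) / 2) * 2
      = ((∑ i, ∑ j, d i * d j * pe χ γ i j) * LL - ∑ i, ∑ j, (d i * d j) * C i j)
        + ((∑ i, d i * pe χ γ i i) * LL - ∑ i, d i * C i i) := by ring
  rw [e]
  exact add_le_add h7 h8

/-- lower bound for the logarithm -/
lemma ww_re_low (z : ℂ) (hz : ‖z‖ < 1) :
    (z ^ 2).re / 2 - 160 * ‖z‖ ^ 3 ≤ (-Pool.Agent.T6.H78.CK.ww z).re := by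
  unfold Pool.Agent.T6.H78.CK.ww
  rcases le_or_gt ‖z‖ (1 / 4) with h | h
  · have h1 := Pool.T6.H82.KS.log_one_sub_bound3 z h
    have h2 := (Complex.abs_re_le_norm _).trans h1
    have h3 := (abs_le.mp h2).1
    have e : (-log (1 - z) - z - z ^ 2 / 2).re = (-(z + log (1 - z))).re - (z ^ 2).re / 2 := by
      rw [show (2 : ℂ) = ((2 : ℝ) : ℂ) by norm_num, Complex.sub_re, Complex.div_ofReal_re]
      congr 2
      ring
    rw [e] at h3
    have h4 : 0 ≤ ‖z‖ ^ 3 := by positivity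
    linarith
  · have h1 : (1 / 4 : ℝ) ^ 3 ≤ ‖z‖ ^ 3 := pow_le_pow_left₀ (by norm_num) h.le 3
    have h2 : (z ^ 2).re ≤ 1 := by
      refine (Complex.re_le_norm _).trans ?_
      rw [norm_pow]
      exact pow_le_one₀ (norm_nonneg _) hz.le
    have h3 : Real.log ‖1 - z‖ ≤ 1 := by
      have h4 : ‖1 - z‖ ≤ 2 := by
        refine (norm_sub_le _ _).trans ?_
        rw [norm_one]; linarith
      have h5 : 0 < ‖1 - z‖ := by
        rw [norm_pos_iff, sub_ne_zero]
        rintro rfl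
        simp at hz
      have h6 := Real.log_le_sub_one_of_pos h5
      linarith
    have h4 : (-(z + log (1 - z))).re = -z.re - Real.log ‖1 - z‖ := by
      rw [Complex.neg_re, Complex.add_re, Complex.log_re]; ring
    rw [h4]
    have h5 : z.re ≤ 1 := (Complex.re_le_norm z).trans hz.le
    norm_num at h1
    linarith

end Pool.T6.H82.OS
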