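import Mathlib
import Pool.Agent.T6.H82.OS.Quad

/-!
One-sided classes of completely multiplicative functions: the local lower bound near -1/2
-/

set_option autoImplicit false
set_option linter.unusedSectionVars false

open Complex Finset Filter Topology ArithmeticFunction
open Pool.H232R3
open Pool.T6.H82.KS (zf zz zf_norm_le zf_diff zz_norm_le zf_mul Q2 prime_sum_low)
open Pool.Agent.T6.H78.CK (Dec ww dec_prime)

namespace Pool.T6.H82.OS

/-- the inequality behind the lower bound -/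
lemma alg_low (φ ρ α ε U e C : ℝ) (hφ : 0 ≤ φ) (hα : |α| ≤ C / 2)
    (hε : 0 ≤ ε) (hεB : ε ≤ 1 + C / 2) (hφα : φ ≤ α + ε) (hU : 0 ≤ U) (hU2 : U ≤ 2 + C)
    (he0 : 0 ≤ e) (he : e ≤ 2 * ε) (hUe : U - e = 2 * (ρ + α)) :
    α ^ 2 - ((8 * (2 + C) + 1280) * |α| ^ 3
      + (2 * (1 + C) + C + (1 + C / 2) + 1280 * (1 + C / 2) ^ 2) * ε) ≤
    U - e + (2 * ρ ^ 2 - φ ^ 2) - 320 * φ ^ 3 := by
  have hC : 0 ≤ C := by have := abs_nonneg α; linarith
  have hab := abs_le.mp hα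
  have ha0 := abs_nonneg α
  have h1 : 2 * α ^ 2 - 2 * α * (U - e) ≤ 2 * ρ ^ 2 := by
    have : ρ = (U - e) / 2 - α := by linarith
    rw [this]
    nlinarith [sq_nonneg (U - e)]
  have h2 : φ ^ 2 ≤ (α + ε) ^ 2 := pow_le_pow_left₀ hφ hφα 2
  have h3 : -(8 * (2 + C) * |α| ^ 3) ≤ U * (1 - 2 * α) := by
    rcases le_or_gt |α| (1 / 2) with h | h
    · have h4 := (abs_le.mp h).2
      have h5 : 0 ≤ U * (1 - 2 * α) := mul_nonneg hU (by linarith)
      have h6 : 0 ≤ 8 * (2 + C) * |α| ^ 3 := by positivity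
      linarith
    · have h4 : α ≤ |α| := le_abs_self α
      have h5 : |α| ≤ 4 * |α| ^ 3 := by nlinarith [sq_nonneg |α|, mul_self_nonneg (|α|)]
      have h6 : U * (2 * |α|) ≤ (2 + C) * (2 * |α|) := by gcongr
      nlinarith
  have h4 : e * (1 - 2 * α) ≤ 2 * (1 + C) * ε := by
    have h5 : 1 - 2 * α ≤ 1 + C := by linarith
    calc e * (1 - 2 * α) ≤ e * (1 + C) := mul_le_mul_of_nonneg_left h5 he0
      _ ≤ (2 * ε) * (1 + C) := mul_le_mul_of_nonneg_right he (by linarith)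
      _ = _ := by ring
  have h5 : φ ^ 3 ≤ 4 * (|α| ^ 3 + (1 + C / 2) ^ 2 * ε) := by
    have h6 : φ ≤ |α| + ε := hφα.trans (by linarith [le_abs_self α])
    have h7 : φ ^ 3 ≤ (|α| + ε) ^ 3 := pow_le_pow_left₀ hφ h6 3
    have h8 : (|α| + ε) ^ 3 ≤ 4 * (|α| ^ 3 + ε ^ 3) := by
      nlinarith [mul_nonneg (add_nonneg ha0 hε) (sq_nonneg (|α| - ε))]
    have h9 : ε ^ 3 ≤ (1 + C / 2) ^ 2 * ε := by
      have h10 : ε ^ 2 ≤ (1 + C / 2) ^ 2 := pow_le_pow_left₀ hε hεB 2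
      calc ε ^ 3 = ε ^ 2 * ε := by ring
        _ ≤ _ := mul_le_mul_of_nonneg_right h10 hε
    linarith
  have h6 : 2 * α * ε ≤ C * ε := mul_le_mul_of_nonneg_right (by linarith) hε
  have h7 : ε ^ 2 ≤ (1 + C / 2) * ε := by
    rw [pow_two]; exact mul_le_mul_of_nonneg_right hεB hε
  nlinarith

variable {q : ℕ} [NeZero q] {κ : Type} [Fintype κ]
variable {c : κ → ℝ} {χ : κ → DirichletCharacter ℂ q} {γ : κ → ℝ} {f : ArithmeticFunction ℂ}
  {A : ℕ → ℝ} {θ : ℝ}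

/-- the excess of the modulus -/
noncomputable def Ef (f : ArithmeticFunction ℂ) (A : ℕ → ℝ) (p : ℕ) : ℝ := max (‖f p‖ - A p / 2) 0

lemma Ef_nonneg (f : ArithmeticFunction ℂ) (A : ℕ → ℝ) (p : ℕ) : 0 ≤ Ef f A p := le_max_right _ _

lemma ef_le_Ef (f : ArithmeticFunction ℂ) (A : ℕ → ℝ) (p : ℕ) : ef f A p ≤ 2 * Ef f A p := by
  unfold ef Ef
  have h1 := neg_abs_le (f p).re
  have h2 := Complex.abs_re_le_norm (f p)
  refine max_le ?_ (by positivity)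
  have h3 := le_max_left (‖f p‖ - A p / 2) 0
  linarith

lemma Dat.A_bound (h : Dat q κ c χ γ f A θ) (p : ℕ) (hp : p.Prime) :
    |A p| ≤ (∑ j, c j) * (p : ℝ) ^ (-1 : ℝ) := by
  have h3 := h.real p hp
  have h4 : ‖(A p : ℂ)‖ ≤ (∑ j, c j) * (p : ℝ) ^ (-1 : ℝ) := by
    rw [← h3]
    refine Pool.T6.H82.KS.norm_wsum_le c (fun j => (h.c0 j).le) _ _ fun j => ?_
    refine (zf_norm_le χ γ p hp 0 j).trans (le_of_eq ?_)
    simp
  rwa [Complex.norm_real, Real.norm_eq_abs] at h4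

/-- the local lower bound -/
theorem Dat.local_low (h : Dat q κ c χ γ f A (1 / 2)) (p : ℕ) (hp : p.Prime) (x : ℝ)
    (hx1 : -(1 / 2) < x) (hx2 : x < -(1 / 4)) :
    2 * (Q2 (fun j => c j / 2) (zf χ γ p x)).re
      - (((8 * (2 + ∑ j, c j) + 1280) * ((∑ j, c j) / 2) ^ 3 + 160 * ∑ j, c j)
          * (p : ℝ) ^ (-(3 / 2) : ℝ)
        + (2 * (1 + ∑ j, c j) + (∑ j, c j) + (1 + (∑ j, c j) / 2)
          + 1280 * (1 + (∑ j, c j) / 2) ^ 2) * (Real.sqrt p * Ef f A p)) ≤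
    (((uf f A p : ℝ) : ℂ) * (p : ℂ) ^ (-(x : ℂ)) + vs c χ γ f A p x).re := by
  set C : ℝ := ∑ j, c j with hC
  have hC0 : 0 ≤ C := Finset.sum_nonneg fun j _ => (h.c0 j).le
  have hp0 : (0 : ℝ) < p := by exact_mod_cast hp.pos
  have hp1 : (1 : ℝ) ≤ p := by exact_mod_cast hp.one_lt.le
  set t : ℝ := (p : ℝ) ^ (-x) with ht
  have ht0 : 0 < t := by positivity
  have htp : (p : ℂ) ^ (-(x : ℂ)) = (t : ℂ) := by
    rw [ht, Complex.ofReal_cpow hp0.le]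
    push_cast
    rfl
  have hts : t ≤ Real.sqrt p := by
    rw [ht, Real.sqrt_eq_rpow]
    exact Real.rpow_le_rpow_of_exponent_le hp1 (by linarith)
  obtain ⟨r, hr0, hr1, hra, hrb⟩ := h.arg x hx1
  have hφ1 : ‖f p‖ * t < 1 := lt_of_le_of_lt (hra p hp) hr1
  -- the quantities
  set φ : ℝ := ‖f p‖ * t with hφ
  set ρ : ℝ := (f p).re * t with hρ
  set α : ℝ := A p / 2 * t with hα
  set ε : ℝ := Ef f A p * t with hε
  set U : ℝ := uf f A p * t with hU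
  set e : ℝ := ef f A p * t with he
  have hα1 : |α| ≤ C / 2 * (p : ℝ) ^ (-(1 / 2) : ℝ) := by
    rw [hα, abs_mul, abs_div, abs_of_pos ht0, abs_of_pos (by norm_num : (0 : ℝ) < 2)]
    have h1 := h.A_bound p hp
    calc |A p| / 2 * t ≤ (C * (p : ℝ) ^ (-1 : ℝ)) / 2 * (p : ℝ) ^ (1 / 2 : ℝ) := by
          rw [← Real.sqrt_eq_rpow]
          gcongr
      _ = C / 2 * ((p : ℝ) ^ (-1 : ℝ) * (p : ℝ) ^ (1 / 2 : ℝ)) := by ring
      _ = _ := by
          rw [← Real.rpow_add hp0]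
          norm_num
  have hph : (p : ℝ) ^ (-(1 / 2) : ℝ) ≤ 1 :=
    Real.rpow_le_one_of_one_le_of_nonpos hp1 (by norm_num)
  have hα2 : |α| ≤ C / 2 := hα1.trans (mul_le_of_le_one_right (by positivity) hph)
  have hα3 : |α| ^ 3 ≤ (C / 2) ^ 3 * (p : ℝ) ^ (-(3 / 2) : ℝ) := by
    refine (pow_le_pow_left₀ (abs_nonneg α) hα1 3).trans (le_of_eq ?_)
    rw [mul_pow, ← Real.rpow_natCast ((p : ℝ) ^ (-(1 / 2) : ℝ)), ← Real.rpow_mul hp0.le]
    norm_num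
  have hε0 : 0 ≤ ε := mul_nonneg (Ef_nonneg f A p) ht0.le
  have hφ0 : 0 ≤ φ := by positivity
  have hφα : φ ≤ α + ε := by
    have h1 : ‖f p‖ ≤ A p / 2 + Ef f A p := by
      have := le_max_left (‖f p‖ - A p / 2) 0
      change _ ≤ Ef f A p at this
      linarith
    calc φ ≤ (A p / 2 + Ef f A p) * t := mul_le_mul_of_nonneg_right h1 ht0.le
      _ = _ := by rw [hα, hε]; ring
  have hεB : ε ≤ 1 + C / 2 := by
    have h1 : ε = max (φ - α) 0 := by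
      rw [hε, hφ, hα]
      unfold Ef
      rw [max_mul_of_nonneg _ _ ht0.le, zero_mul]
      congr 1
      ring
    rw [h1]
    refine max_le ?_ (by positivity)
    have := (abs_le.mp hα2).1
    linarith
  have hεs : ε ≤ Real.sqrt p * Ef f A p := by
    rw [hε, mul_comm]
    exact mul_le_mul_of_nonneg_right hts (Ef_nonneg f A p)
  have hU0 : 0 ≤ U := mul_nonneg (uf_nonneg f A p) ht0.le
  have he0 : 0 ≤ e := mul_nonneg (ef_nonneg f A p) ht0.le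
  have hρφ : |ρ| ≤ φ := by
    rw [hρ, abs_mul, abs_of_pos ht0]
    exact mul_le_mul_of_nonneg_right (Complex.abs_re_le_norm _) ht0.le
  have hUe : U - e = 2 * (ρ + α) := by
    rw [hU, he, ← sub_mul, uf_sub_ef, hρ, hα]; ring
  have hU2 : U ≤ 2 + C := by
    have h1 : U = max (2 * (ρ + α)) 0 := by
      rw [hU, hρ, hα]
      unfold uf
      rw [max_mul_of_nonneg _ _ ht0.le, zero_mul]
      congr 1
      ring
    rw [h1]
    refine max_le ?_ (by positivity)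
    have h2 := (abs_le.mp hα2).2
    have h3 := (abs_le.mp hρφ).2
    linarith
  have hee : e ≤ 2 * ε := by
    have := mul_le_mul_of_nonneg_right (ef_le_Ef f A p) ht0.le
    rw [he, hε]; linarith
  have hmain := alg_low φ ρ α ε U e C hφ0 hα2 hε0 hεB hφα hU0 hU2 he0 hee hUe
  -- the second order terms
  have hw1 : ‖f p * (p : ℂ) ^ (-(x : ℂ))‖ = φ := by
    rw [htp, norm_mul, Complex.norm_real, Real.norm_eq_abs, abs_of_pos ht0]
  have hw2 : ‖cj f p * (p : ℂ) ^ (-(x : ℂ))‖ = φ := by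
    rw [htp, norm_mul, Complex.norm_real, Real.norm_eq_abs, abs_of_pos ht0, cj_norm]
  have hsq : ‖f p‖ ^ 2 = (f p).re ^ 2 + (f p).im ^ 2 := by
    rw [Complex.sq_norm, Complex.normSq_apply]; ring
  have hs1 : ((f p * (p : ℂ) ^ (-(x : ℂ))) ^ 2).re = 2 * ρ ^ 2 - φ ^ 2 := by
    rw [htp, hρ, hφ, mul_pow, mul_pow, mul_pow, hsq, ← Complex.ofReal_pow, Complex.re_mul_ofReal]
    rw [pow_two (f p), Complex.mul_re]
    ring
  have hs2 : ((cj f p * (p : ℂ) ^ (-(x : ℂ))) ^ 2).re = 2 * ρ ^ 2 - φ ^ 2 := by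
    rw [htp, hρ, hφ, mul_pow, mul_pow, mul_pow, hsq, ← Complex.ofReal_pow, Complex.re_mul_ofReal,
      cj_apply]
    rw [pow_two (starRingEnd ℂ (f p)), Complex.mul_re, Complex.conj_re, Complex.conj_im]
    ring
  have l1 := ww_re_low _ (by rw [hw1]; exact hφ1 : ‖f p * (p : ℂ) ^ (-(x : ℂ))‖ < 1)
  have l2 := ww_re_low _ (by rw [hw2]; exact hφ1 : ‖cj f p * (p : ℂ) ^ (-(x : ℂ))‖ < 1)
  rw [hw1, hs1] at l1
  rw [hw2, hs2] at l2
  have hz : ∀ j, ‖zf χ γ p x j‖ ≤ (p : ℝ) ^ (-(1 + x)) := by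
    intro j
    have := zf_norm_le χ γ p hp (x : ℂ) j
    rwa [Complex.ofReal_re] at this
  have hz1 : ∀ j, ‖zf χ γ p x j‖ < 1 := fun j => lt_of_le_of_lt ((hz j).trans (hrb p hp)) hr1
  have hz3 : ∀ j, ‖zf χ γ p x j‖ ^ 3 ≤ (p : ℝ) ^ (-(3 / 2) : ℝ) := by
    intro j
    refine (pow_le_pow_left₀ (norm_nonneg _) (hz j) 3).trans ?_
    rw [← Real.rpow_natCast, ← Real.rpow_mul hp0.le]
    refine Real.rpow_le_rpow_of_exponent_le hp1 ?_
    push_cast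
    linarith
  have l3 : ∑ j, c j * ((zf χ γ p x j ^ 2).re / 2) - 160 * C * (p : ℝ) ^ (-(3 / 2) : ℝ) ≤
      (-∑ j, (c j : ℂ) * ww (zf χ γ p x j)).re := by
    rw [Complex.neg_re, Complex.re_sum, ← Finset.sum_neg_distrib]
    simp_rw [Complex.re_ofReal_mul]
    have h1 : ∑ j, c j * ((zf χ γ p x j ^ 2).re / 2) - 160 * C * (p : ℝ) ^ (-(3 / 2) : ℝ)
        = ∑ j, c j * ((zf χ γ p x j ^ 2).re / 2 - 160 * (p : ℝ) ^ (-(3 / 2) : ℝ)) := by
      simp_rw [mul_sub, Finset.sum_sub_distrib, ← Finset.sum_mul]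
      rw [hC]; ring
    rw [h1]
    refine Finset.sum_le_sum fun j _ => ?_
    rw [← mul_neg]
    refine mul_le_mul_of_nonneg_left ?_ (h.c0 j).le
    have h2 := ww_re_low _ (hz1 j)
    rw [Complex.neg_re] at h2
    have h3 := hz3 j
    linarith
  have hQ : 2 * (Q2 (fun j => c j / 2) (zf χ γ p x)).re
      = α ^ 2 + ∑ j, c j * ((zf χ γ p x j ^ 2).re / 2) := by
    unfold Q2
    have h1 : ∑ j, (((c j / 2 : ℝ)) : ℂ) * zf χ γ p x j = (α : ℂ) := by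
      have h2 : ∑ j, (((c j / 2 : ℝ)) : ℂ) * zf χ γ p x j
          = (∑ j, (c j : ℂ) * zf χ γ p 0 j) / 2 * (t : ℂ) := by
        rw [Finset.sum_div, Finset.sum_mul]
        refine Finset.sum_congr rfl fun j _ => ?_
        rw [zf_shift χ γ p hp x j, htp]
        push_cast; ring
      rw [h2, h.real p hp, hα]
      push_cast; ring
    rw [h1]
    have h3 : (((α : ℂ) ^ 2 + ∑ j, (((c j / 2 : ℝ)) : ℂ) * zf χ γ p x j ^ 2) / 2).re
        = (α ^ 2 + ∑ j, c j / 2 * (zf χ γ p x j ^ 2).re) / 2 := by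
      rw [show (2 : ℂ) = ((2 : ℝ) : ℂ) by norm_num, Complex.div_ofReal_re, Complex.add_re,
        Complex.re_sum, ← Complex.ofReal_pow, Complex.ofReal_re]
      simp_rw [Complex.re_ofReal_mul]
    rw [h3]
    have h4 : ∑ j, c j / 2 * (zf χ γ p x j ^ 2).re = ∑ j, c j * ((zf χ γ p x j ^ 2).re / 2) :=
      Finset.sum_congr rfl fun j _ => by ring
    rw [h4]; ring
  have hsplit : (((uf f A p : ℝ) : ℂ) * (p : ℂ) ^ (-(x : ℂ)) + vs c χ γ f A p x).re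
      = U + (-ww (f p * (p : ℂ) ^ (-(x : ℂ)))).re + (-ww (cj f p * (p : ℂ) ^ (-(x : ℂ)))).re
        + (-∑ j, (c j : ℂ) * ww (zf χ γ p x j)).re - e := by
    unfold vs
    rw [htp, hU, he]
    simp only [Complex.add_re, Complex.sub_re, Complex.neg_re, ← Complex.ofReal_mul,
      Complex.ofReal_re]
    ring
  rw [hQ, hsplit]
  have hK2 : (8 * (2 + C) + 1280) * |α| ^ 3 ≤
      (8 * (2 + C) + 1280) * ((C / 2) ^ 3 * (p : ℝ) ^ (-(3 / 2) : ℝ)) := by gcongr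
  have hK3 : (2 * (1 + C) + C + (1 + C / 2) + 1280 * (1 + C / 2) ^ 2) * ε ≤
      (2 * (1 + C) + C + (1 + C / 2) + 1280 * (1 + C / 2) ^ 2) * (Real.sqrt p * Ef f A p) := by
    gcongr
  nlinarith [hmain, l1, l2, l3, hK2, hK3]

end Pool.T6.H82.OS
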