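import Mathlib
import Pool.Agent.T6.H78.CK.E6
import Pool.Agent.T6.H78.CK.E7

/-!
Upper bounds for the Mellin transform of the partial sums, real powers of the logarithm
-/

set_option autoImplicit false

open ArithmeticFunction Finset Filter Topology MeasureTheory
open Pool.H232R3
open Pool.Agent.T6.H78.CK (Dec dec_bound int_rpow)

namespace Pool.T6.H82.OS

/-- little o with a real power of the logarithm -/
def LOr (f : ℕ → ℂ) (a : ℝ) : Prop := ∀ ε : ℝ, 0 < ε → ∃ N₀ : ℕ, ∀ N : ℕ, N₀ ≤ N →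
  ‖SS f N‖ ≤ ε * ((N : ℝ) ^ (-(1 / 2) : ℝ) * (Real.log N) ^ a)

lemma rpow_le_exp (a : ℝ) (ha : 0 ≤ a) : ∃ M : ℝ, 0 < M ∧ ∀ x : ℝ, 0 ≤ x → x ^ a ≤ M * Real.exp x := by
  refine ⟨1 + (⌈a⌉₊.factorial : ℝ), by positivity, fun x hx => ?_⟩
  have he : 0 < Real.exp x := Real.exp_pos x
  have hf : (0 : ℝ) < (⌈a⌉₊.factorial : ℝ) := by positivity
  rcases le_total x 1 with h | h
  · have h1 : x ^ a ≤ 1 := Real.rpow_le_one hx h ha
    have h2 : 1 ≤ Real.exp x := Real.one_le_exp hx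
    nlinarith
  · have h1 : x ^ a ≤ x ^ (⌈a⌉₊ : ℝ) := Real.rpow_le_rpow_of_exponent_le h (Nat.le_ceil a)
    rw [Real.rpow_natCast] at h1
    have h2 := Real.pow_div_factorial_le_exp x hx ⌈a⌉₊
    rw [div_le_iff₀ hf] at h2
    nlinarith

/-- `(log t)^a` is bounded by powers of `t` -/
lemma log_rpow_le (a : ℝ) (ha : 0 ≤ a) : ∃ M : ℝ, 0 < M ∧ ∀ η : ℝ, 0 < η → ∀ t : ℝ, 1 ≤ t →
    (Real.log t) ^ a ≤ M * (1 / η) ^ a * t ^ η := by
  obtain ⟨M, hM0, hM⟩ := rpow_le_exp a ha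
  refine ⟨M, hM0, fun η hη t ht => ?_⟩
  have ht0 : 0 < t := by linarith
  have hl : 0 ≤ Real.log t := Real.log_nonneg ht
  have h := hM (η * Real.log t) (by positivity)
  have e : Real.exp (η * Real.log t) = t ^ η := by
    rw [Real.rpow_def_of_pos ht0, mul_comm]
  rw [e] at h
  have h3 : (Real.log t) ^ a = (1 / η) ^ a * (η * Real.log t) ^ a := by
    rw [← Real.mul_rpow (by positivity) (by positivity)]
    congr 1
    field_simp
  rw [h3]
  calc (1 / η) ^ a * (η * Real.log t) ^ a ≤ (1 / η) ^ a * (M * t ^ η) := by gcongr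
    _ = _ := by ring

lemma LOr_dec (f : ℕ → ℂ) (a : ℝ) (ha : 0 ≤ a) (h : LOr f a) : Dec f (1 / 2) := by
  intro θ' h0 h1
  obtain ⟨M, hM0, hM⟩ := log_rpow_le a ha
  set δ : ℝ := 1 / 2 - θ' with hδ
  have hδ0 : 0 < δ := by rw [hδ]; linarith
  set K : ℝ := M * (1 / δ) ^ a with hK
  have hK0 : 0 < K := by positivity
  obtain ⟨N₀, hN₀⟩ := h 1 one_pos
  -- bound for small N
  set B : ℝ := ∑ N ∈ Finset.range (N₀ + 1), ‖SS f N‖ * (N : ℝ) ^ θ' with hB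
  have hB0 : 0 ≤ B := Finset.sum_nonneg fun N _ => by positivity
  refine ⟨K + B, by linarith, fun N hN => ?_⟩
  have hN1 : (1 : ℝ) ≤ N := by exact_mod_cast hN
  have hN0 : (0 : ℝ) < N := by linarith
  rcases le_total N₀ N with hle | hle
  · refine (hN₀ N hle).trans ?_
    rw [one_mul]
    calc (N : ℝ) ^ (-(1 / 2) : ℝ) * (Real.log N) ^ a
        ≤ (N : ℝ) ^ (-(1 / 2) : ℝ) * (K * (N : ℝ) ^ δ) := by
          gcongr; exact hM δ hδ0 _ hN1
      _ = K * ((N : ℝ) ^ (-(1 / 2) : ℝ) * (N : ℝ) ^ δ) := by ring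
      _ = K * (N : ℝ) ^ (-θ') := by rw [← Real.rpow_add hN0]; congr 2; rw [hδ]; ring
      _ ≤ _ := by gcongr; linarith
  · have h2 : ‖SS f N‖ * (N : ℝ) ^ θ' ≤ B :=
      Finset.single_le_sum (f := fun N : ℕ => ‖SS f N‖ * (N : ℝ) ^ θ') (fun N _ => by positivity)
        (Finset.mem_range.mpr (by omega))
    have h3 : ‖SS f N‖ = ‖SS f N‖ * (N : ℝ) ^ θ' * (N : ℝ) ^ (-θ') := by
      rw [mul_assoc, ← Real.rpow_add hN0]; simp
    rw [h3]
    gcongr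
    linarith

lemma LOr_cj (g : ArithmeticFunction ℂ) (a : ℝ) (h : LOr (fun n => g n) a) :
    LOr (fun n => cj g n) a := by
  intro ε hε
  obtain ⟨N₀, hN₀⟩ := h ε hε
  refine ⟨N₀, fun N hN => ?_⟩
  rw [SS_cj, RCLike.norm_conj]
  exact hN₀ N hN

lemma Phi_upper (f : ℕ → ℂ) (a : ℝ) (ha : 0 ≤ a) (h : LOr f a) : ∃ A : ℝ, 0 < A ∧ ∀ ε : ℝ, 0 < ε →
    ∃ B : ℝ, 0 ≤ B ∧ ∀ η : ℝ, 0 < η → η ≤ 1 / 2 →
      ‖Phi f ((η - 1 / 2 : ℝ) : ℂ)‖ ≤ B + ε * A * (1 / η) ^ (a + 1) := by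
  obtain ⟨C, hC0, hb⟩ := dec_bound f (1 / 2) (by norm_num) (LOr_dec f a ha h)
  obtain ⟨M, hM0, hM⟩ := log_rpow_le a ha
  refine ⟨4 * M * 2 ^ a, by positivity, fun ε hε => ?_⟩
  obtain ⟨N₀, hN₀⟩ := h ε hε
  set T : ℝ := max N₀ 1 with hT
  have hT1 : 1 ≤ T := le_max_right _ _
  refine ⟨C * (T - 1), by nlinarith, fun η hη hη2 => ?_⟩
  rw [Phi_eq_integral]
  have hlog : ∀ t : ℝ, 1 ≤ t → (Real.log t) ^ a ≤ M * (1 / (η / 2)) ^ a * t ^ (η / 2) :=
    fun t ht => hM (η / 2) (by positivity) t ht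
  have hSb : ∀ t : ℝ, 1 < t → T < t → ‖SS f ⌊t⌋₊‖ ≤ 2 * ε * (t ^ (-(1 / 2) : ℝ) * (Real.log t) ^ a) := by
    intro t ht1 htT
    have ht0 : 0 < t := by linarith
    have hN : N₀ ≤ ⌊t⌋₊ := Nat.le_floor ((le_max_left _ _).trans htT.le)
    have hfl : t < ⌊t⌋₊ + 1 := Nat.lt_floor_add_one t
    have hf1 : (1 : ℝ) ≤ ⌊t⌋₊ := by
      have : 1 ≤ ⌊t⌋₊ := Nat.le_floor (by simpa using ht1.le)
      exact_mod_cast this
    have hft : (⌊t⌋₊ : ℝ) ≤ t := Nat.floor_le ht0.le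
    refine (hN₀ _ hN).trans ?_
    have h5 : ((⌊t⌋₊ : ℕ) : ℝ) ^ (-(1 / 2) : ℝ) ≤ 2 * t ^ (-(1 / 2) : ℝ) := by
      have h6 : ((⌊t⌋₊ : ℕ) : ℝ) ^ (-(1 / 2) : ℝ) ≤ (t / 4) ^ (-(1 / 2) : ℝ) :=
        Real.rpow_le_rpow_of_nonpos (by positivity) (by linarith) (by norm_num)
      refine h6.trans (le_of_eq ?_)
      rw [Real.div_rpow ht0.le (by norm_num)]
      have : (4 : ℝ) ^ (-(1 / 2) : ℝ) = 1 / 2 := by
        rw [show (4 : ℝ) = 2 ^ (2 : ℝ) by norm_num, ← Real.rpow_mul (by norm_num)]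
        norm_num
      rw [this]
      ring
    have h7 : (Real.log ((⌊t⌋₊ : ℕ) : ℝ)) ^ a ≤ (Real.log t) ^ a := by
      have := Real.log_nonneg hf1
      gcongr
    calc ε * (((⌊t⌋₊ : ℕ) : ℝ) ^ (-(1 / 2) : ℝ) * (Real.log ((⌊t⌋₊ : ℕ) : ℝ)) ^ a)
        ≤ ε * ((2 * t ^ (-(1 / 2) : ℝ)) * (Real.log t) ^ a) := by
          have := Real.log_nonneg hf1
          have h8 : 0 ≤ (Real.log ((⌊t⌋₊ : ℕ) : ℝ)) ^ a := Real.rpow_nonneg this _
          gcongr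
      _ = _ := by ring
  set E : ℝ := 2 * ε * (M * (1 / (η / 2)) ^ a) with hE
  have hE0 : 0 < E := by positivity
  have hint1 : IntegrableOn (fun t : ℝ => E * t ^ (-1 - η / 2 : ℝ)) (Set.Ioi 1) :=
    int_rpow (η / 2) (by linarith) E
  have hint2 : IntegrableOn (fun t : ℝ => (Set.Ioc (1 : ℝ) T).indicator (fun _ => C) t) (Set.Ioi 1) := by
    refine (Integrable.integrableOn ?_)
    rw [integrable_indicator_iff measurableSet_Ioc]
    exact integrableOn_const (by simp)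
  have hle : ‖∫ t in Set.Ioi (1 : ℝ), SS f ⌊t⌋₊ * (t : ℂ) ^ (-((((η - 1 / 2 : ℝ) : ℂ)) + 1))‖
      ≤ ∫ t in Set.Ioi (1 : ℝ), ((Set.Ioc (1 : ℝ) T).indicator (fun _ => C) t
        + E * t ^ (-1 - η / 2 : ℝ)) := by
    refine norm_integral_le_of_norm_le (hint2.add hint1) ?_
    rw [ae_restrict_iff' measurableSet_Ioi]
    refine Eventually.of_forall fun t ht => ?_
    have ht1 : (1 : ℝ) < t := ht
    have ht0 : 0 < t := by linarith
    rw [norm_mul, Complex.norm_cpow_eq_rpow_re_of_pos ht0]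
    have hre : (-((((η - 1 / 2 : ℝ) : ℂ)) + 1)).re = -(1 / 2) - η := by
      rw [Complex.neg_re, Complex.add_re, Complex.ofReal_re, Complex.one_re]; ring
    rw [hre]
    by_cases htT : t ≤ T
    · rw [Set.indicator_of_mem (show t ∈ Set.Ioc 1 T from ⟨ht1, htT⟩)]
      have h2 : t ^ (-(1 / 2) - η : ℝ) ≤ 1 :=
        Real.rpow_le_one_of_one_le_of_nonpos ht1.le (by linarith)
      have h3 : 0 ≤ E * t ^ (-1 - η / 2 : ℝ) := by positivity
      calc ‖SS f ⌊t⌋₊‖ * t ^ (-(1 / 2) - η : ℝ) ≤ C * 1 := by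
            refine mul_le_mul (hb _) h2 (by positivity) hC0.le
        _ ≤ C + E * t ^ (-1 - η / 2 : ℝ) := by linarith
    · rw [Set.indicator_of_notMem (show t ∉ Set.Ioc 1 T from fun h => htT h.2), zero_add]
      push Not at htT
      have h1 := hSb t ht1 htT
      calc ‖SS f ⌊t⌋₊‖ * t ^ (-(1 / 2) - η : ℝ)
          ≤ (2 * ε * (t ^ (-(1 / 2) : ℝ) * (M * (1 / (η / 2)) ^ a * t ^ (η / 2))))
            * t ^ (-(1 / 2) - η : ℝ) := by
            gcongr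
            exact h1.trans (by gcongr; exact hlog t ht1.le)
        _ = E * (t ^ (-(1 / 2) : ℝ) * t ^ (η / 2) * t ^ (-(1 / 2) - η : ℝ)) := by
            rw [hE]; ring
        _ = _ := by
            rw [← Real.rpow_add ht0, ← Real.rpow_add ht0]
            congr 2
            ring
  refine hle.trans ?_
  rw [integral_add hint2 hint1]
  have e1 : ∫ t in Set.Ioi (1 : ℝ), (Set.Ioc (1 : ℝ) T).indicator (fun _ => C) t = C * (T - 1) := by
    rw [setIntegral_indicator measurableSet_Ioc]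
    have : Set.Ioi (1 : ℝ) ∩ Set.Ioc 1 T = Set.Ioc 1 T := by
      ext t; simp
    rw [this, setIntegral_const]
    simp [Real.volume_real_Ioc_of_le hT1, mul_comm]
  have e2 : ∫ t in Set.Ioi (1 : ℝ), E * t ^ (-1 - η / 2 : ℝ) = E * (2 / η) := by
    rw [integral_const_mul, integral_Ioi_rpow_of_lt (by linarith) one_pos]
    rw [Real.one_rpow]
    have hne : η ≠ 0 := hη.ne'
    have : -1 - η / 2 + 1 = -(η / 2) := by ring
    rw [this, neg_div_neg_eq]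
    congr 1
    field_simp
  rw [e1, e2]
  refine le_of_eq ?_
  congr 1
  have e3 : (1 / (η / 2)) ^ a = 2 ^ a * (1 / η) ^ a := by
    rw [← Real.mul_rpow (by norm_num) (by positivity)]
    congr 1
    field_simp
  have e4 : (1 / η) ^ (a + 1) = (1 / η) ^ a * (1 / η) := by
    rw [Real.rpow_add (by positivity), Real.rpow_one]
  rw [hE, e3, e4]
  ring

end Pool.T6.H82.OS
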