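import Mathlib
import Pool.Agent.T6.H82.OS.Local
import Pool.Agent.T6.H82.OS.Up

/-!
One-sided classes of completely multiplicative functions: the contradiction
-/

set_option autoImplicit false
set_option linter.unusedSectionVars false

open Complex Finset Filter Topology ArithmeticFunction
open Pool.H232R3
open Pool.T6.H82.KS (zf Q2 Kf pf Kf_diff)
open Pool.Agent.T6.H78.CK (Dec ww)

namespace Pool.T6.H82.OS

variable {q : ℕ} [NeZero q] {κ : Type} [Fintype κ]
variable {c : κ → ℝ} {χ : κ → DirichletCharacter ℂ q} {γ : κ → ℝ} {f : ArithmeticFunction ℂ}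
  {A : ℕ → ℝ} {θ : ℝ}

/-- lower bound for the logarithm near `-1/2` -/
theorem Dat.log_low (h : Dat q κ c χ γ f A (1 / 2))
    (hE : Summable fun p : Nat.Primes => Real.sqrt p * Ef f A p) :
    ∃ C : ℝ, ∀ x : ℝ, -(1 / 2) < x → x < -(1 / 4) →
      2 * (mu (fun j => c j / 2) χ γ * Real.log (1 / (1 + 2 * x))) - C ≤
        (LSeries (ac f A) x + V c χ γ f A x).re := by
  obtain ⟨C₁, hQ⟩ := quad_low (fun j => c j / 2) (fun j => half_pos (h.c0 j)) χ γ
  set Ka : ℝ := (8 * (2 + ∑ j, c j) + 1280) * ((∑ j, c j) / 2) ^ 3 + 160 * ∑ j, c j with hKa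
  set Kb : ℝ := 2 * (1 + ∑ j, c j) + (∑ j, c j) + (1 + (∑ j, c j) / 2)
          + 1280 * (1 + (∑ j, c j) / 2) ^ 2 with hKb
  have hDs : Summable fun p : Nat.Primes => Ka * ((p : ℕ) : ℝ) ^ (-(3 / 2) : ℝ)
      + Kb * (Real.sqrt p * Ef f A p) :=
    ((Nat.Primes.summable_rpow.mpr (by norm_num)).mul_left _).add (hE.mul_left _)
  refine ⟨2 * C₁ + ∑' p : Nat.Primes, (Ka * ((p : ℕ) : ℝ) ^ (-(3 / 2) : ℝ)
      + Kb * (Real.sqrt p * Ef f A p)), fun x hx1 hx2 => ?_⟩
  obtain ⟨hQs, hQl⟩ := hQ x hx1 hx2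
  have hab : LSeries.abscissaOfAbsConv (ac f A) < (((x : ℝ) : ℂ).re : EReal) := by
    refine lt_of_le_of_lt h.absc ?_
    rw [Complex.ofReal_re]
    exact_mod_cast hx1
  have hs := summable_of_ac f A x (LSeriesSummable_of_abscissaOfAbsConv_lt_re hab)
  have hv := h.vs_summable x (by rw [Complex.ofReal_re]; exact hx1)
  have hsum := hs.add hv
  have hQr : Summable fun p : Nat.Primes => (Q2 (fun j => c j / 2) (zf χ γ p x)).re :=
    (Complex.hasSum_re hQs.hasSum).summable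
  have hr : Summable fun p : Nat.Primes =>
      (((uf f A p : ℝ) : ℂ) * ((p : ℕ) : ℂ) ^ (-(x : ℂ)) + vs c χ γ f A p x).re :=
    (Complex.hasSum_re hsum.hasSum).summable
  have h1 : ∑' p : Nat.Primes, (2 * (Q2 (fun j => c j / 2) (zf χ γ p x)).re
      - (Ka * ((p : ℕ) : ℝ) ^ (-(3 / 2) : ℝ) + Kb * (Real.sqrt p * Ef f A p))) ≤
      ∑' p : Nat.Primes,
        (((uf f A p : ℝ) : ℂ) * ((p : ℕ) : ℂ) ^ (-(x : ℂ)) + vs c χ γ f A p x).re :=
    Summable.tsum_le_tsum (fun p => h.local_low p p.2 x hx1 hx2) ((hQr.mul_left 2).sub hDs) hr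
  rw [(hQr.mul_left 2).tsum_sub hDs, tsum_mul_left, ← Complex.re_tsum hQs,
    ← Complex.re_tsum hsum, hs.tsum_add hv] at h1
  rw [(ac_hasSum f A x hs).LSeries_eq]
  unfold V
  linarith

lemma Pq_low (χ : κ → DirichletCharacter ℂ q) (γ : κ → ℝ) (j : κ) (x : ℝ) (hx : x < -(1 / 4)) :
    1 / 4 ≤ ‖Pq χ γ j x‖ := by
  unfold Pq pf
  split_ifs
  · rw [norm_one]; norm_num
  · have h1 := Complex.abs_re_le_norm (1 + (x : ℂ) - I * (γ j : ℂ) - 1)
    have h2 : (1 + (x : ℂ) - I * (γ j : ℂ) - 1).re = x := by simp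
    rw [h2] at h1
    have h3 := neg_abs_le x
    linarith
  · rw [norm_one]; norm_num

/-- the contradiction -/
theorem Dat.omega (h : Dat q κ c χ γ f A (1 / 2))
    (hE : Summable fun p : Nat.Primes => Real.sqrt p * Ef f A p)
    (hmu : 1 ≤ mu (fun j => c j / 2) χ γ)
    (hLO : LOr (fun n => f n) (mu (fun j => c j / 2) χ γ - 1)) : False := by
  classical
  set μ : ℝ := mu (fun j => c j / 2) χ γ with hμ
  obtain ⟨C', hlow⟩ := h.log_low hE
  obtain ⟨C, hC0, hC⟩ := h.prod (-(1 / 2)) le_rfl (by norm_num) h.absc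
  obtain ⟨A₁, hA₁, hup₁⟩ := Phi_upper _ _ (by linarith) hLO
  obtain ⟨A₂, hA₂, hup₂⟩ := Phi_upper _ _ (by linarith) (LOr_cj f _ hLO)
  -- the constants
  have hKc : ∀ j, ∃ M : ℝ, 0 < M ∧ ∀ x : ℝ, -(1/2) < x → x < -(1/4) →
      ‖Kf (χ j) (1 + x - I * γ j)‖ ≤ M := by
    intro j
    have hcont : Continuous (fun σ : ℝ => Kf (χ j) (1 + σ - I * γ j)) :=
      (Kf_diff (χ j)).continuous.comp (by fun_prop)
    obtain ⟨M, hM⟩ := (isCompact_Icc (a := (-(1/2) : ℝ)) (b := -(1/4))).exists_bound_of_continuousOn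
      hcont.continuousOn
    exact ⟨|M| + 1, by positivity, fun σ h0 h1 => by
      have := hM σ ⟨h0.le, h1.le⟩
      have h2 := le_abs_self M
      linarith⟩
  choose M hM0 hM using hKc
  set Pc : ℝ := ∏ j, (M j * 4) ^ c j with hPc
  have hPc0 : 0 < Pc := Finset.prod_pos fun j _ =>
    Real.rpow_pos_of_pos (mul_pos (hM0 j) (by norm_num)) _
  have hkey : ∀ x : ℝ, -(1 / 2) < x → x < -(1 / 4) →
      C * Real.exp (-C') * ((1 / (1 + 2 * x)) ^ μ) ^ 2 ≤
      (‖Phi (fun n => f n) x‖ * ‖Phi (fun n => cj f n) x‖) * Pc := by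
    intro x hx1 hx2
    have h1 := hC x hx1 (by linarith)
    simp only [Fintype.prod_sum_type, dd, GG, Sum.elim_inl, Sum.elim_inr, Fintype.prod_bool,
      Real.rpow_one] at h1
    rw [← Finset.prod_mul_distrib] at h1
    have h2 : ∏ j, (‖Kf (χ j) (1 + x - I * γ j)‖ ^ c j * ‖Pq χ γ j x‖ ^ (-c j)) ≤ Pc := by
      refine Finset.prod_le_prod (fun j _ => by positivity) fun j _ => ?_
      rw [Real.mul_rpow (hM0 j).le (by norm_num)]
      have h3 := Pq_low χ γ j x hx2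
      refine mul_le_mul (Real.rpow_le_rpow (norm_nonneg _) (hM j x hx1 hx2) (h.c0 j).le) ?_
        (by positivity) (by have := hM0 j; positivity)
      rw [Real.rpow_neg (norm_nonneg _), ← Real.inv_rpow (norm_nonneg _)]
      refine Real.rpow_le_rpow (by positivity) ?_ (h.c0 j).le
      rw [inv_le_comm₀ (by linarith) (by norm_num)]
      norm_num at h3 ⊢
      exact h3
    have h4 : C * Real.exp (-C') * ((1 / (1 + 2 * x)) ^ μ) ^ 2 ≤
        C * Real.exp (LSeries (ac f A) x + V c χ γ f A x).re := by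
      rw [mul_assoc]
      refine mul_le_mul_of_nonneg_left ?_ hC0.le
      have hpos : 0 < 1 / (1 + 2 * x) := by
        have : 0 < 1 + 2 * x := by linarith
        positivity
      have h5 : Real.exp (-C') * ((1 / (1 + 2 * x)) ^ μ) ^ 2
          = Real.exp (2 * (μ * Real.log (1 / (1 + 2 * x))) - C') := by
        rw [Real.rpow_def_of_pos hpos, ← Real.exp_nat_mul, ← Real.exp_add]
        congr 1
        push_cast
        ring
      rw [h5]
      exact Real.exp_le_exp.mpr (hlow x hx1 hx2)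
    refine h4.trans ?_
    rw [← h1]
    simp only [if_true, Bool.false_eq_true, if_false]
    exact mul_le_mul_of_nonneg_left h2 (by positivity)
  -- the contradiction
  set c3 : ℝ := C * Real.exp (-C') / Pc with hc3
  have hc3p : 0 < c3 := by positivity
  set c4 : ℝ := Real.sqrt c3 * (1 / 2) ^ μ with hc4
  have hc4p : 0 < c4 := mul_pos (Real.sqrt_pos.mpr hc3p) (by positivity)
  set A₀ : ℝ := max A₁ A₂ with hA
  have hAp : 0 < A₀ := lt_max_of_lt_left hA₁
  set ε : ℝ := c4 / (4 * A₀) with hε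
  have hεp : 0 < ε := by positivity
  obtain ⟨B₁, hB₁, hb₁⟩ := hup₁ ε hεp
  obtain ⟨B₂, hB₂, hb₂⟩ := hup₂ ε hεp
  set B : ℝ := max B₁ B₂ with hB
  have hB0 : 0 ≤ B := hB₁.trans (le_max_left _ _)
  set η : ℝ := min (1 / 8) (c4 / (4 * (B + 1))) with hη
  have hη0 : 0 < η := by
    rw [hη]
    exact lt_min (by norm_num) (by positivity)
  have hη1 : η ≤ 1 / 8 := min_le_left _ _
  have hη3 : η ≤ c4 / (4 * (B + 1)) := min_le_right _ _
  have h5 := hkey (η - 1 / 2) (by linarith) (by linarith)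
  have u1 := hb₁ η hη0 (by linarith)
  have u2 := hb₂ η hη0 (by linarith)
  rw [sub_add_cancel] at u1 u2
  have e1 : 1 + 2 * (η - 1 / 2) = 2 * η := by ring
  rw [e1] at h5
  set X : ℝ := (1 / η) ^ μ with hX
  have hX0 : 0 < X := by positivity
  have e2 : (1 / (2 * η)) ^ μ = (1 / 2) ^ μ * X := by
    rw [hX, ← Real.mul_rpow (by norm_num) (by positivity)]
    congr 1
    field_simp
  rw [e2] at h5
  set D : ℝ := B + ε * A₀ * X with hD
  have hD0 : 0 ≤ D := by positivity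
  have v1 : ‖Phi (fun n => f n) ((η - 1 / 2 : ℝ) : ℂ)‖ ≤ D := by
    refine u1.trans ?_
    rw [hD]
    gcongr
    · exact le_max_left _ _
    · exact le_max_left _ _
  have v2 : ‖Phi (fun n => cj f n) ((η - 1 / 2 : ℝ) : ℂ)‖ ≤ D := by
    refine u2.trans ?_
    rw [hD]
    gcongr
    · exact le_max_right _ _
    · exact le_max_right _ _
  have h6 : C * Real.exp (-C') * ((1 / 2) ^ μ * X) ^ 2 ≤ D ^ 2 * Pc := by
    refine h5.trans ?_
    refine mul_le_mul_of_nonneg_right ?_ hPc0.le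
    rw [pow_two]
    exact mul_le_mul v1 v2 (norm_nonneg _) hD0
  have h7 : (c4 * X) ^ 2 ≤ D ^ 2 := by
    have h8 : (c4 * X) ^ 2 = c3 * ((1 / 2) ^ μ * X) ^ 2 := by
      rw [hc4]
      calc (Real.sqrt c3 * (1 / 2) ^ μ * X) ^ 2
          = (Real.sqrt c3) ^ 2 * ((1 / 2) ^ μ * X) ^ 2 := by ring
        _ = _ := by rw [Real.sq_sqrt hc3p.le]
    rw [h8, hc3, div_mul_eq_mul_div, div_le_iff₀ hPc0]
    exact h6
  have h8 : c4 * X ≤ D := by
    exact (pow_le_pow_iff_left₀ (by positivity) hD0 (by norm_num)).mp h7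
  have h9 : ε * A₀ = c4 / 4 := by
    rw [hε]; field_simp
  rw [hD, h9] at h8
  have h10 : 1 / η ≤ X := by
    have : (1 / η) ^ (1 : ℝ) ≤ (1 / η) ^ μ := by
      refine Real.rpow_le_rpow_of_exponent_le ?_ hmu
      rw [le_div_iff₀ hη0]; linarith
    rwa [Real.rpow_one] at this
  have h11 : 4 * (B + 1) ≤ c4 * (1 / η) := by
    rw [le_div_iff₀ (by positivity)] at hη3
    rw [mul_one_div, le_div_iff₀ hη0]
    linarith
  have h12 : c4 * (1 / η) ≤ c4 * X := mul_le_mul_of_nonneg_left h10 hc4p.le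
  nlinarith

end Pool.T6.H82.OS
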