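import Mathlib
import Pool.Agent.T6.H82.OS.Fin
import Pool.Agent.T6.H82.KS.Red

/-!
One-sided classes of completely multiplicative functions: the theorems for a family
-/

set_option autoImplicit false
set_option linter.unusedSectionVars false

open Complex Finset Filter Topology ArithmeticFunction
open Pool.H232R3
open Pool.T6.H82.KS (zf ee Q2 Kf pf Kf_diff uu uu_eq)
open Pool.Agent.T6.H78.CK (Dec ww)

namespace Pool.T6.H82.OS

variable {q : ℕ} [NeZero q] {ι : Type} [Fintype ι]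

/-- the doubled family: weights -/
def c2 (c : ι → ℝ) : ι ⊕ ι → ℝ := Sum.elim c c

/-- the doubled family: characters -/
noncomputable def χ2 (χ : ι → DirichletCharacter ℂ q) : ι ⊕ ι → DirichletCharacter ℂ q :=
  Sum.elim χ (fun i => (χ i)⁻¹)

/-- the doubled family: twists -/
def γ2 (γ : ι → ℝ) : ι ⊕ ι → ℝ := Sum.elim γ (fun i => -γ i)

/-- the weighted sum of twisted characters -/
noncomputable def gp (c : ι → ℝ) (χ : ι → DirichletCharacter ℂ q) (γ : ι → ℝ) (p : ℕ) : ℂ :=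
  ∑ i, (c i : ℂ) * χ i (p : ZMod q) * (p : ℂ) ^ (I * (γ i : ℂ))

/-- twice its real part, divided by `p` -/
noncomputable def A2 (c : ι → ℝ) (χ : ι → DirichletCharacter ℂ q) (γ : ι → ℝ) (p : ℕ) : ℝ :=
  2 * ((gp c χ γ p).re / p)

lemma zf_inr (χ : ι → DirichletCharacter ℂ q) (γ : ι → ℝ) (p : ℕ) (hp : p.Prime) (i : ι) :
    zf (χ2 χ) (γ2 γ) p 0 (Sum.inr i) = (starRingEnd ℂ) (zf (χ2 χ) (γ2 γ) p 0 (Sum.inl i)) := by
  unfold zf Pool.T6.H82.KS.zz χ2 γ2
  simp only [Sum.elim_inr, Sum.elim_inl]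
  rw [map_mul]
  congr 1
  · rw [← MulChar.star_apply']; rfl
  · have harg : (p : ℂ).arg ≠ Real.pi := by
      rw [Complex.natCast_arg]; exact Real.pi_pos.ne
    have h1 := Complex.cpow_conj (p : ℂ) (-(1 + 0 - I * (γ i : ℂ))) harg
    rw [Complex.conj_natCast] at h1
    rw [← h1]
    congr 1
    simp
    ring

lemma real2 (c : ι → ℝ) (χ : ι → DirichletCharacter ℂ q) (γ : ι → ℝ) (p : ℕ) (hp : p.Prime) :
    ∑ j, (c2 c j : ℂ) * zf (χ2 χ) (γ2 γ) p 0 j = (A2 c χ γ p : ℂ) := by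
  rw [Fintype.sum_sum_type]
  have h1 : ∑ i, (c2 c (Sum.inl i) : ℂ) * zf (χ2 χ) (γ2 γ) p 0 (Sum.inl i) = gp c χ γ p / p := by
    have h2 := uu_eq c χ γ p hp
    unfold uu at h2
    rw [neg_div, neg_inj] at h2
    exact h2
  have h3 : ∑ i, (c2 c (Sum.inr i) : ℂ) * zf (χ2 χ) (γ2 γ) p 0 (Sum.inr i)
      = (starRingEnd ℂ) (gp c χ γ p / p) := by
    rw [← h1, map_sum]
    refine Finset.sum_congr rfl fun i _ => ?_
    rw [zf_inr χ γ p hp i, map_mul, Complex.conj_ofReal]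
    rfl
  rw [h1, h3, Complex.add_conj, Complex.div_natCast_re]
  rfl

lemma triv2 (c : ι → ℝ) (χ : ι → DirichletCharacter ℂ q) (γ : ι → ℝ)
    (hw : ∑ i, c i * ee χ γ i = 1) : ∑ j, c2 c j * ee (χ2 χ) (γ2 γ) j = 2 := by
  rw [Fintype.sum_sum_type]
  have h1 : ∀ i, ee (χ2 χ) (γ2 γ) (Sum.inl i) = ee χ γ i := fun i => rfl
  have h2 : ∀ i, ee (χ2 χ) (γ2 γ) (Sum.inr i) = ee χ γ i := by
    intro i
    unfold ee χ2 γ2
    simp only [Sum.elim_inr, inv_eq_one, neg_eq_zero]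
  simp only [h1, h2, c2, Sum.elim_inl, Sum.elim_inr]
  rw [hw]; norm_num

variable (c : ι → ℝ) (hc : ∀ i, 0 < c i) (χ : ι → DirichletCharacter ℂ q) (γ : ι → ℝ)
  (hw : ∑ i, c i * ee χ γ i = 1) (f : ℕ → ℂ) (f1 : f 1 = 1)
  (hf : ∀ m n : ℕ, 0 < m → 0 < n → f (m * n) = f m * f n)

include hc hw f1 hf in
lemma mk_dat (θ : ℝ) (h0 : 0 < θ) (h1 : θ ≤ 1 / 2) (hdec : Dec (fun n => ext0 f n) θ)
    (hsq : ∀ σ : ℝ, σ < θ → Summable fun p : Nat.Primes => ‖f p‖ ^ 2 * ((p : ℕ) : ℝ) ^ (2 * σ))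
    (hs : Summable fun p : Nat.Primes =>
      Real.sqrt p * max (-((gp c χ γ p).re / p) - (f p).re) 0) :
    Dat q (ι ⊕ ι) (c2 c) (χ2 χ) (γ2 γ) (ext0 f) (A2 c χ γ) θ where
  c0 := by rintro (i | i) <;> exact hc i
  one := by rw [ext0_apply f 1 one_ne_zero]; exact f1
  mul := ext0_mul f hf
  th0 := h0
  th1 := h1
  dec := hdec
  real := real2 c χ γ
  sq := by
    intro σ hσ
    refine (hsq (-σ) (by linarith)).congr fun p => ?_
    have hp0 : (0 : ℝ) ≤ (p : ℕ) := Nat.cast_nonneg _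
    rw [ext0_apply f p p.2.ne_zero, mul_pow, ← Real.rpow_natCast (((p : ℕ) : ℝ) ^ (-σ)),
      ← Real.rpow_mul hp0]
    congr 2
    push_cast; ring
  ex := by
    refine (hs.mul_left 2).congr fun p => ?_
    rw [ext0_apply f p p.2.ne_zero]
    have : max (-(2 * (f p).re + A2 c χ γ p)) 0
        = 2 * max (-((gp c χ γ p).re / p) - (f p).re) 0 := by
      rw [mul_max_of_nonneg _ _ (by norm_num : (0 : ℝ) ≤ 2), mul_zero]
      unfold A2
      congr 1
      ring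
    rw [this]; ring
  triv := triv2 c χ γ hw

include hc hw f1 hf in
theorem part_A (θ : ℝ) (h0 : 0 < θ) (h1 : θ ≤ 1 / 2)
    (hsq : ∀ σ : ℝ, σ < θ → Summable fun p : Nat.Primes => ‖f p‖ ^ 2 * ((p : ℕ) : ℝ) ^ (2 * σ))
    (hs : Summable fun p : Nat.Primes =>
      Real.sqrt p * max (-((gp c χ γ p).re / p) - (f p).re) 0)
    (hB : ∃ B : ℝ, ∀ N : ℕ, 1 ≤ N → ‖∑ n ∈ Finset.Icc 1 N, f n‖ ≤ B * (N : ℝ) ^ (-θ))
    (i : ι) (s : ℂ) (hs1 : 1 - θ < s.re) (hs2 : χ i ≠ 1 ∨ s ≠ 1) :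
    DirichletCharacter.LFunction (χ i) s ≠ 0 := by
  obtain ⟨B, hB⟩ := hB
  have hdec : Dec (fun n => ext0 f n) θ := by
    intro θ' h1 h2
    refine ⟨|B| + 1, by positivity, fun N hN => ?_⟩
    have hN1 : (1 : ℝ) ≤ N := by exact_mod_cast hN
    rw [ext0_SS]
    refine (hB N hN).trans ?_
    have h3 : (N : ℝ) ^ (-θ) ≤ (N : ℝ) ^ (-θ') :=
      Real.rpow_le_rpow_of_exponent_le hN1 (by linarith)
    calc B * (N : ℝ) ^ (-θ) ≤ (|B| + 1) * (N : ℝ) ^ (-θ) := by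
          gcongr
          linarith [le_abs_self B]
      _ ≤ _ := by gcongr
  exact (mk_dat c hc χ γ hw f f1 hf θ h0 h1 hdec hsq hs).LFunction_free (Sum.inl i) s hs1 hs2

/-- the order of growth of the family -/
noncomputable def growth (c : ι → ℝ) (χ : ι → DirichletCharacter ℂ q) (γ : ι → ℝ) : ℝ :=
  mu (fun j => c2 c j / 2) (χ2 χ) (γ2 γ)

open Classical in
lemma growth_eq (c : ι → ℝ) (χ : ι → DirichletCharacter ℂ q) (γ : ι → ℝ) :
    growth c χ γ = ((∑ i, ∑ j, c i * c j * ((if χ i * χ j = 1 ∧ γ i + γ j = 0 then 1 else 0)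
      + (if χ i = χ j ∧ γ i = γ j then 1 else 0)) / 2)
      + ∑ i, c i * (if χ i * χ i = 1 ∧ γ i = 0 then 1 else 0)) / 2 := by
  have e11 : ∀ i j : ι, pe (χ2 χ) (γ2 γ) (Sum.inl i) (Sum.inl j)
      = if χ i * χ j = 1 ∧ γ i + γ j = 0 then 1 else 0 := fun i j => rfl
  have e12 : ∀ i j : ι, pe (χ2 χ) (γ2 γ) (Sum.inl i) (Sum.inr j)
      = if χ i = χ j ∧ γ i = γ j then 1 else 0 := by
    intro i j
    unfold pe χ2 γ2
    simp only [Sum.elim_inl, Sum.elim_inr, mul_inv_eq_one, ← sub_eq_add_neg, sub_eq_zero]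
  have e21 : ∀ i j : ι, pe (χ2 χ) (γ2 γ) (Sum.inr i) (Sum.inl j)
      = if χ i = χ j ∧ γ i = γ j then 1 else 0 := by
    intro i j
    unfold pe χ2 γ2
    simp only [Sum.elim_inl, Sum.elim_inr, inv_mul_eq_one, neg_add_eq_zero]
  have e22 : ∀ i j : ι, pe (χ2 χ) (γ2 γ) (Sum.inr i) (Sum.inr j)
      = if χ i * χ j = 1 ∧ γ i + γ j = 0 then 1 else 0 := by
    intro i j
    unfold pe χ2 γ2
    simp only [Sum.elim_inr, ← mul_inv, inv_eq_one, ← neg_add, neg_eq_zero]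
  have e3 : ∀ i : ι, (if χ i * χ i = 1 ∧ γ i + γ i = 0 then (1 : ℝ) else 0)
      = if χ i * χ i = 1 ∧ γ i = 0 then 1 else 0 := by
    intro i
    have : γ i + γ i = 0 ↔ γ i = 0 := by constructor <;> intro h <;> linarith
    simp only [this]
  unfold growth mu
  congr 1
  simp only [Fintype.sum_sum_type, e11, e12, e21, e22, e3, c2, Sum.elim_inl, Sum.elim_inr]
  rw [← Finset.sum_add_distrib, ← Finset.sum_add_distrib]
  congr 1
  · refine Finset.sum_congr rfl fun i _ => ?_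
    rw [← Finset.sum_add_distrib, ← Finset.sum_add_distrib, ← Finset.sum_add_distrib]
    refine Finset.sum_congr rfl fun j _ => ?_
    ring
  · refine Finset.sum_congr rfl fun i _ => ?_
    ring

include hc hw in
lemma growth_ge : 1 ≤ growth c χ γ := by
  classical
  rw [growth_eq]
  have h1 : ∀ i j : ι, (c i * ee χ γ i) * (c j * ee χ γ j) ≤
      c i * c j * ((if χ i * χ j = 1 ∧ γ i + γ j = 0 then 1 else 0)
      + (if χ i = χ j ∧ γ i = γ j then 1 else 0)) / 2 := by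
    intro i j
    have hcc : 0 < c i * c j := mul_pos (hc i) (hc j)
    have hnn : 0 ≤ c i * c j * ((if χ i * χ j = 1 ∧ γ i + γ j = 0 then 1 else 0)
      + (if χ i = χ j ∧ γ i = γ j then 1 else 0)) / 2 := by
      have h2 : (0 : ℝ) ≤ (if χ i * χ j = 1 ∧ γ i + γ j = 0 then 1 else 0) := by
        split_ifs <;> norm_num
      have h3 : (0 : ℝ) ≤ (if χ i = χ j ∧ γ i = γ j then 1 else 0) := by
        split_ifs <;> norm_num
      positivity
    by_cases hi : χ i = 1 ∧ γ i = 0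
    · by_cases hj : χ j = 1 ∧ γ j = 0
      · unfold ee
        rw [if_pos hi, if_pos hj, hi.1, hi.2, hj.1, hj.2]
        simp
        linarith
      · have : ee χ γ j = 0 := if_neg hj
        rw [this]; simpa using hnn
    · have : ee χ γ i = 0 := if_neg hi
      rw [this]; simpa using hnn
  have h2 : (1 : ℝ) ≤ ∑ i, ∑ j, c i * c j * ((if χ i * χ j = 1 ∧ γ i + γ j = 0 then 1 else 0)
      + (if χ i = χ j ∧ γ i = γ j then 1 else 0)) / 2 := by
    have h3 : (1 : ℝ) = ∑ i, ∑ j, (c i * ee χ γ i) * (c j * ee χ γ j) := by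
      rw [← Finset.sum_mul_sum, hw]; norm_num
    refine (le_of_eq h3).trans ?_
    exact Finset.sum_le_sum fun i _ => Finset.sum_le_sum fun j _ => h1 i j
  have h4 : (1 : ℝ) ≤ ∑ i, c i * (if χ i * χ i = 1 ∧ γ i = 0 then 1 else 0) := by
    refine (le_of_eq hw.symm).trans ?_
    refine Finset.sum_le_sum fun i _ => mul_le_mul_of_nonneg_left ?_ (hc i).le
    unfold ee
    by_cases hi : χ i = 1 ∧ γ i = 0
    · rw [if_pos hi, if_pos ⟨by rw [hi.1, one_mul], hi.2⟩]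
    · rw [if_neg hi]
      split_ifs <;> norm_num
  linarith

include hc hw f1 hf in
theorem part_B
    (hs : Summable fun p : Nat.Primes =>
      Real.sqrt p * max (‖f p‖ - (gp c χ γ p).re / p) 0) :
    ∃ C : ℝ, 0 < C ∧ ∀ M : ℕ, ∃ N : ℕ, M ≤ N ∧ 1 < N ∧
      C * ((N : ℝ) ^ (-(1 / 2) : ℝ) * (Real.log N) ^ (growth c χ γ - 1)) ≤
        ‖∑ n ∈ Finset.Icc 1 N, f n‖ := by
  by_contra hcon
  push Not at hcon
  have hg := growth_ge c hc χ γ hw
  have hLO : LOr (fun n => ext0 f n) (growth c χ γ - 1) := by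
    intro ε hε
    obtain ⟨M, hM⟩ := hcon ε hε
    refine ⟨max M 2, fun N hN => ?_⟩
    rw [ext0_SS]
    exact (hM N ((le_max_left _ _).trans hN)
      (lt_of_lt_of_le one_lt_two ((le_max_right _ _).trans hN))).le
  have hdec := LOr_dec _ _ (by linarith) hLO
  have hEf : ∀ p : ℕ, p.Prime → Ef (ext0 f) (A2 c χ γ) p
      = max (‖f p‖ - (gp c χ γ p).re / p) 0 := by
    intro p hp
    unfold Ef A2
    rw [ext0_apply f p hp.ne_zero]
    congr 2
    ring
  have hone : Summable fun p : Nat.Primes =>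
      Real.sqrt p * max (-((gp c χ γ p).re / p) - (f p).re) 0 := by
    refine Summable.of_nonneg_of_le (fun p => by positivity) (fun p => ?_) hs
    have h3 : -((gp c χ γ p).re / p) - (f p).re ≤ ‖f p‖ - (gp c χ γ p).re / p := by
      have h4 := Complex.abs_re_le_norm (f p)
      have h5 := neg_abs_le (f p).re
      linarith
    gcongr
  -- the square summability
  have hsq : ∀ σ : ℝ, σ < 1 / 2 →
      Summable fun p : Nat.Primes => ‖f p‖ ^ 2 * ((p : ℕ) : ℝ) ^ (2 * σ) := by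
    intro σ hσ
    set K : ℝ := ∑ i, c i with hK
    have hK0 : 0 ≤ K := Finset.sum_nonneg fun i _ => (hc i).le
    set S : ℝ := ∑' p : Nat.Primes, Real.sqrt p * max (‖f p‖ - (gp c χ γ p).re / p) 0 with hS
    refine Summable.of_nonneg_of_le (fun p => by positivity) (fun p => ?_)
      (((Nat.Primes.summable_rpow.mpr (show -2 + 2 * σ < -1 by linarith)).mul_left (2 * K ^ 2)).add
        (hs.mul_left (2 * S)))
    have hp0 : (0 : ℝ) < (p : ℕ) := by exact_mod_cast p.2.pos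
    have hp1 : (1 : ℝ) ≤ (p : ℕ) := by exact_mod_cast p.2.one_lt.le
    set E : ℝ := max (‖f p‖ - (gp c χ γ p).re / p) 0 with hE
    have hE0 : 0 ≤ E := le_max_right _ _
    have hES : Real.sqrt p * E ≤ S := hs.le_tsum p fun j _ => by positivity
    have h1 : ‖f p‖ ≤ (gp c χ γ p).re / p + E := by
      have := le_max_left (‖f p‖ - (gp c χ γ p).re / p) 0
      linarith
    have h2 : (gp c χ γ p).re / p ≤ K * ((p : ℕ) : ℝ) ^ (-1 : ℝ) := by
      rw [Real.rpow_neg_one, ← div_eq_mul_inv]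
      have h3 : (gp c χ γ p).re ≤ K := by
        refine (Complex.re_le_norm _).trans ?_
        unfold gp
        refine (norm_sum_le _ _).trans ?_
        refine Finset.sum_le_sum fun i _ => ?_
        rw [norm_mul, norm_mul, Complex.norm_real, Real.norm_eq_abs, abs_of_pos (hc i),
          Complex.norm_natCast_cpow_of_pos p.2.pos]
        have h4 : (I * (γ i : ℂ)).re = 0 := by simp
        rw [h4, Real.rpow_zero, mul_one]
        exact mul_le_of_le_one_right (hc i).le ((χ i).norm_le_one _)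
      gcongr
    have h3 : ‖f p‖ ^ 2 ≤ 2 * K ^ 2 * (((p : ℕ) : ℝ) ^ (-1 : ℝ)) ^ 2 + 2 * E ^ 2 := by
      have h4 : ‖f p‖ ≤ K * ((p : ℕ) : ℝ) ^ (-1 : ℝ) + E := by linarith
      have h5 := pow_le_pow_left₀ (norm_nonneg _) h4 2
      nlinarith [sq_nonneg (K * ((p : ℕ) : ℝ) ^ (-1 : ℝ) - E)]
    have h4 : ((p : ℕ) : ℝ) ^ (2 * σ) ≤ p := by
      calc ((p : ℕ) : ℝ) ^ (2 * σ) ≤ ((p : ℕ) : ℝ) ^ (1 : ℝ) :=
            Real.rpow_le_rpow_of_exponent_le hp1 (by linarith)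
        _ = _ := Real.rpow_one _
    have h5 : E ^ 2 * ((p : ℕ) : ℝ) ^ (2 * σ) ≤ S * (Real.sqrt p * E) := by
      calc E ^ 2 * ((p : ℕ) : ℝ) ^ (2 * σ) ≤ E ^ 2 * p := by gcongr
        _ = (Real.sqrt p * E) * (Real.sqrt p * E) := by
            nlinarith [Real.mul_self_sqrt hp0.le]
        _ ≤ _ := mul_le_mul_of_nonneg_right hES (by positivity)
    have h6 : (((p : ℕ) : ℝ) ^ (-1 : ℝ)) ^ 2 * ((p : ℕ) : ℝ) ^ (2 * σ)
        = ((p : ℕ) : ℝ) ^ (-2 + 2 * σ) := by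
      rw [← Real.rpow_natCast, ← Real.rpow_mul hp0.le, ← Real.rpow_add hp0]
      norm_num
    calc ‖f p‖ ^ 2 * ((p : ℕ) : ℝ) ^ (2 * σ)
        ≤ (2 * K ^ 2 * (((p : ℕ) : ℝ) ^ (-1 : ℝ)) ^ 2 + 2 * E ^ 2) * ((p : ℕ) : ℝ) ^ (2 * σ) := by
          gcongr
      _ = 2 * K ^ 2 * ((((p : ℕ) : ℝ) ^ (-1 : ℝ)) ^ 2 * ((p : ℕ) : ℝ) ^ (2 * σ))
          + 2 * (E ^ 2 * ((p : ℕ) : ℝ) ^ (2 * σ)) := by ring
      _ ≤ 2 * K ^ 2 * ((p : ℕ) : ℝ) ^ (-2 + 2 * σ) + 2 * (S * (Real.sqrt p * E)) := by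
          rw [h6]; gcongr
      _ = _ := by ring
  have hdat := mk_dat c hc χ γ hw f f1 hf (1 / 2) (by norm_num) le_rfl hdec hsq hone
  refine hdat.omega ?_ hg hLO
  refine hs.congr fun p => ?_
  rw [hEf p p.2]

end Pool.T6.H82.OS
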